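import Pool.Agent.R982.TC.B3

/-!
# Piece B: the iteration, `St_Process`
-/

open Finset

set_option linter.unusedSectionVars false

namespace Pool.Agent.R982.TC.Process

section

variable {r lam : ℕ} {S : Type} [Fintype S] [DecidableEq S]
  (π : Fin r → Fin lam → (S ≃ S)) (C : Finset (Fin r × S))

/-- used colours -/
def used (T : Fin r → Option S) : Finset (Fin r) := univ.filter (fun j => (T j).isSome)

lemma mem_used (T : Fin r → Option S) (j : Fin r) : j ∈ used T ↔ (T j).isSome := by
  unfold used; simp

lemma used_update (T : Fin r → Option S) (j : Fin r) (c : S) :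
    used (Function.update T j (some c)) = insert j (used T) := by
  ext j'
  rw [mem_used, Finset.mem_insert, mem_used]
  by_cases h : j' = j
  · subst h; simp
  · rw [Function.update_of_ne h]
    simp [h]

/-- the invariant -/
structure Inv (s : ℕ) (U : Fin lam → Finset S) (T : Fin r → Option S)
    (Z : Finset (Fin lam × S)) : Prop where
  h0 : ∀ i, s ≤ #(U i)
  h1 : ∀ i v, v ∉ U i → (i, v) ∈ Z ∨ ∃ j, T j = some ((π j i).symm v)
  h2 : ∀ j c, T j = some c → (j, c) ∉ C
  h3 : Phi π C s (#(used T)) U + (#Z : ℝ) / (8 * (Fintype.card S : ℝ)) ≤
    3 / 32 + (#(used T) : ℝ) / (512 * (Fintype.card S : ℝ))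
  h4 : #(used T) ≤ 8 * Fintype.card S

lemma dh_nonneg (U : Fin lam → Finset S) : 0 ≤ dh π C U := by
  unfold dh
  have : 0 ≤ PP U := by unfold PP; positivity
  positivity

lemma dh_le_Phi (s t : ℕ) (U : Fin lam → Finset S) : dh π C U ≤ Phi π C s t U := by
  unfold Phi
  have : 0 ≤ ∑ i, wt s t U i := Finset.sum_nonneg (fun i _ => wt_nonneg s t U i)
  have : 0 ≤ 1 / (32 * (lam : ℝ)) * ∑ i, wt s t U i := by positivity
  linarith

lemma wt_le_Phi (s t : ℕ) (U : Fin lam → Finset S) (i : Fin lam) :
    1 / (32 * (lam : ℝ)) * wt s t U i ≤ Phi π C s t U := by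
  unfold Phi
  have h1 : wt s t U i ≤ ∑ i, wt s t U i :=
    Finset.single_le_sum (f := fun i => wt s t U i) (fun i _ => wt_nonneg s t U i)
      (Finset.mem_univ i)
  have h2 : 1 / (32 * (lam : ℝ)) * wt s t U i ≤ 1 / (32 * (lam : ℝ)) * ∑ i, wt s t U i :=
    mul_le_mul_of_nonneg_left h1 (by positivity)
  have := dh_nonneg π C U
  linarith

lemma iter (hlam : 1 ≤ lam) (hN : 2048 * lam ^ 4 ≤ Fintype.card S)
    (hr : r = 64 * Fintype.card S) (hQ : QR π (eps lam)) (s : ℕ)
    (hs : (Fintype.card S : ℝ) / (2 * (lam : ℝ)) ≤ (s : ℝ)) (hs2 : lam * s ≤ Fintype.card S) :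
    ∀ m : ℕ, ∀ (U : Fin lam → Finset S) (T : Fin r → Option S) (Z : Finset (Fin lam × S)),
      ∑ i, #(U i) + (8 * Fintype.card S - #(used T)) ≤ m → Inv π C s U T Z →
      ∃ T' : Fin r → Option S, (∀ j c, T' j = some c → (j, c) ∉ C) ∧
        Nat.card {v : Fin lam × S // ∀ j, T' j ≠ some ((π j v.1).symm v.2)} ≤
          2 * Fintype.card S := by
  have hlamR : (1 : ℝ) ≤ (lam : ℝ) := by exact_mod_cast hlam
  have hNR : 2048 * (lam : ℝ) ^ 4 ≤ (Fintype.card S : ℝ) := by exact_mod_cast hN
  have hlam4 : (lam : ℝ) ≤ (lam : ℝ) ^ 4 := by
    calc (lam : ℝ) = (lam : ℝ) ^ 1 := (pow_one _).symm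
      _ ≤ _ := pow_le_pow_right₀ hlamR (by norm_num)
  have hNpos : (0 : ℝ) < (Fintype.card S : ℝ) := by linarith
  have hNposN : 0 < Fintype.card S := by exact_mod_cast hNpos
  have hr0 : 0 < r := by omega
  have hspos : (0 : ℝ) < (s : ℝ) := lt_of_lt_of_le (by positivity) hs
  have hs1 : 1 ≤ s := by exact_mod_cast hspos
  intro m
  induction m with
  | zero =>
    intro U T Z hm hI
    exfalso
    have h1 : #(U ⟨0, hlam⟩) ≤ ∑ i, #(U i) :=
      Finset.single_le_sum (f := fun i => #(U i)) (fun i _ => Nat.zero_le _) (Finset.mem_univ _)
    have h2 := hI.h0 ⟨0, hlam⟩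
    omega
  | succ m ih =>
    intro U T Z hm hI
    have h3 := hI.h3
    have ht : (#(used T) : ℝ) / (512 * (Fintype.card S : ℝ)) ≤ 1 / 64 := by
      have h4 : (#(used T) : ℝ) ≤ 8 * (Fintype.card S : ℝ) := by exact_mod_cast hI.h4
      rw [div_le_div_iff₀ (by positivity) (by norm_num)]
      linarith
    have hZ0 : 0 ≤ (#Z : ℝ) / (8 * (Fintype.card S : ℝ)) := by positivity
    have hPhi : Phi π C s (#(used T)) U ≤ 7 / 64 := by linarith
    have hPhi0 : 0 ≤ Phi π C s (#(used T)) U := (dh_nonneg π C U).trans (dh_le_Phi π C s _ U)
    have hdh : dh π C U ≤ 1 / 8 := by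
      have := dh_le_Phi π C s (#(used T)) U
      linarith
    have hU0 : ∀ i, 0 < #(U i) := fun i => lt_of_lt_of_le hs1 (hI.h0 i)
    by_cases hact : ∀ i, #(U i) ≤ s
    · -- finished
      refine ⟨T, hI.h2, ?_⟩
      have hsub : ({v : Fin lam × S | ∀ j, T j ≠ some ((π j v.1).symm v.2)} : Finset _) ⊆
          (univ.filter (fun v : Fin lam × S => v.2 ∈ U v.1)) ∪ Z := by
        intro v hv
        simp only [Finset.mem_filter, Finset.mem_univ, true_and, Finset.mem_union] at hv ⊢
        by_cases h : v.2 ∈ U v.1
        · exact Or.inl h
        · right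
          rcases hI.h1 v.1 v.2 h with h4 | ⟨j, hj⟩
          · exact h4
          · exact absurd hj (hv j)
      have hc1 : #(univ.filter (fun v : Fin lam × S => v.2 ∈ U v.1)) ≤ lam * s := by
        rw [Finset.card_eq_sum_card_fiberwise (f := Prod.fst) (t := (univ : Finset (Fin lam)))
          (fun x _ => by simp)]
        calc ∑ i : Fin lam, #{a ∈ univ.filter (fun v : Fin lam × S => v.2 ∈ U v.1) | a.1 = i}
            ≤ ∑ _i : Fin lam, s := by
              refine Finset.sum_le_sum (fun i _ => ?_)
              refine le_trans ?_ (hact i)
              apply Finset.card_le_card_of_injOn (fun a => a.2)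
              · intro a ha
                simp only [Finset.coe_filter, Finset.mem_filter, Finset.mem_univ, true_and,
                  Set.mem_ofPred_eq] at ha
                rw [← ha.2]
                exact ha.1
              · intro a ha b hb hab
                simp only [Finset.coe_filter, Finset.mem_filter, Finset.mem_univ, true_and,
                  Set.mem_ofPred_eq] at ha hb
                exact Prod.ext (ha.2.trans hb.2.symm) hab
          _ = lam * s := by simp
      have hc2 : #Z ≤ Fintype.card S := by
        have h4 : (#Z : ℝ) / (8 * (Fintype.card S : ℝ)) ≤ 7 / 64 := by linarith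
        rw [div_le_iff₀ (by positivity)] at h4
        have h5 : (#Z : ℝ) ≤ (Fintype.card S : ℝ) := by linarith
        exact_mod_cast h5
      rw [Nat.card_eq_fintype_card, Fintype.card_subtype]
      refine (Finset.card_le_card hsub).trans ((Finset.card_union_le _ _).trans ?_)
      omega
    · push Not at hact
      obtain ⟨i0, hi0⟩ := hact
      -- the number of used colours is smaller than the bound
      have hlt : #(used T) < 8 * Fintype.card S := by
        by_contra hcon
        push Not at hcon
        have heq : #(used T) = 8 * Fintype.card S := le_antisymm hI.h4 hcon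
        have h4 := wt_le_Phi π C s (#(used T)) U i0
        unfold wt at h4
        rw [if_pos hi0, heq] at h4
        have h5 : (1 / 2 : ℝ) ^ (Fintype.card S) ≤ (1 / 2) ^ (Fintype.card S - #(U i0)) :=
          pow_le_pow_of_le_one (by norm_num) (by norm_num) (Nat.sub_le _ _)
        have h6 : (5 / 2 : ℝ) ^ (Fintype.card S) ≤ (9 / 8 : ℝ) ^ (8 * Fintype.card S) := by
          rw [pow_mul]
          apply pow_le_pow_left₀ (by norm_num)
          norm_num
        have h7 : (5 / 4 : ℝ) ^ (Fintype.card S) ≤
            (9 / 8 : ℝ) ^ (8 * Fintype.card S) * (1 / 2) ^ (Fintype.card S - #(U i0)) := by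
          have : (5 / 4 : ℝ) ^ (Fintype.card S) =
              (5 / 2 : ℝ) ^ (Fintype.card S) * (1 / 2) ^ (Fintype.card S) := by
            rw [← mul_pow]; norm_num
          rw [this]
          exact mul_le_mul h6 h5 (by positivity) (by positivity)
        have h8 : 1 + (Fintype.card S : ℝ) * (1 / 4) ≤ (5 / 4 : ℝ) ^ (Fintype.card S) := by
          have := one_add_mul_le_pow (a := (1 / 4 : ℝ)) (by norm_num) (Fintype.card S)
          have h9 : (1 + 1 / 4 : ℝ) = 5 / 4 := by norm_num
          rw [h9] at this
          exact this
        have h9 : 1 / (32 * (lam : ℝ)) * (1 + (Fintype.card S : ℝ) * (1 / 4)) ≤ 7 / 64 := by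
          rw [← heq] at h7
          rw [heq] at h7
          calc 1 / (32 * (lam : ℝ)) * (1 + (Fintype.card S : ℝ) * (1 / 4))
              ≤ 1 / (32 * (lam : ℝ)) * ((9 / 8 : ℝ) ^ (8 * Fintype.card S) *
                (1 / 2) ^ (Fintype.card S - #(U i0))) :=
                mul_le_mul_of_nonneg_left (h8.trans h7) (by positivity)
            _ ≤ _ := by
              rw [heq] at hPhi
              linarith
        rw [div_mul_eq_mul_div, one_mul, div_le_iff₀ (by positivity)] at h9
        linarith
      by_cases hbad : ∃ i, s < #(U i) ∧ ∃ v ∈ U i,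
          (r : ℝ) * (Fintype.card S : ℝ) * PP U / (4 * (#(U i) : ℝ)) < (dd π C U i v : ℝ)
      · -- discard
        obtain ⟨i, hi, v, hv, hddv⟩ := hbad
        have hdis := discard π C s (#(used T)) U i (fun _ => v) hv hs1 hi hU0 hr0 hdh hddv.le
        refine ih (upd U {i} (fun _ => v)) T (insert (i, v) Z) ?_ ?_
        · have h4 : ∑ i', #(upd U {i} (fun _ => v) i') + 1 ≤ ∑ i', #(U i') := by
            rw [← Finset.add_sum_erase univ (fun i' => #(upd U {i} (fun _ => v) i'))
              (Finset.mem_univ i), ← Finset.add_sum_erase univ (fun i' => #(U i'))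
              (Finset.mem_univ i)]
            have h5 := card_upd_of_mem U {i} (fun _ => v) i (by simp) hv
            have h6 : ∑ x ∈ univ.erase i, #(upd U {i} (fun _ => v) x) =
                ∑ x ∈ univ.erase i, #(U x) := by
              refine Finset.sum_congr rfl (fun x hx => ?_)
              rw [upd_of_not_mem]
              simpa using Finset.ne_of_mem_erase hx
            rw [h6]
            omega
          omega
        · refine ⟨?_, ?_, hI.h2, ?_, hI.h4⟩
          · intro i'
            by_cases h : i' = i
            · subst h
              have h5 := card_upd_of_mem U {i'} (fun _ => v) i' (by simp) hv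
              omega
            · rw [upd_of_not_mem _ _ _ _ (by simpa using h)]
              exact hI.h0 i'
          · intro i' v' hv'
            by_cases h : v' ∈ U i'
            · left
              have : i' ∈ ({i} : Finset (Fin lam)) ∧ v' = v := by
                unfold upd at hv'
                split_ifs at hv' with h6
                · refine ⟨h6, ?_⟩
                  by_contra hne
                  exact hv' (Finset.mem_erase.2 ⟨hne, h⟩)
                · exact absurd h hv'
              obtain ⟨h7, h8⟩ := this
              rw [Finset.mem_singleton] at h7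
              rw [h7, h8]
              exact Finset.mem_insert_self _ _
            · rcases hI.h1 i' v' h with h6 | h6
              · exact Or.inl (Finset.mem_insert_of_mem h6)
              · exact Or.inr h6
          · have h5 : (#(insert (i, v) Z) : ℝ) ≤ (#Z : ℝ) + 1 := by
              exact_mod_cast Finset.card_insert_le _ _
            have h6 : (#(insert (i, v) Z) : ℝ) / (8 * (Fintype.card S : ℝ)) ≤
                (#Z : ℝ) / (8 * (Fintype.card S : ℝ)) + 1 / (8 * (Fintype.card S : ℝ)) := by
              rw [← add_div]
              exact div_le_div_of_nonneg_right h5 (by positivity)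
            linarith
      · -- mark
        push Not at hbad
        have hJ : (#(used T) : ℝ) ≤ (r : ℝ) / 8 := by
          have h4 : (#(used T) : ℝ) ≤ 8 * (Fintype.card S : ℝ) := by exact_mod_cast hI.h4
          have h5 : (r : ℝ) = 64 * (Fintype.card S : ℝ) := by rw [hr]; push_cast; ring
          rw [h5]
          linarith
        obtain ⟨q, hq1, hq2, hq3, R, hR, hPhi'⟩ := mark_step π C hlam hN hr0 hQ (used T) hJ s
          (#(used T)) hs U hI.h0 hdh (fun i hi v hv => hbad i hi v hv)
        have hcard : #(used (Function.update T q.1 (some q.2))) = #(used T) + 1 := by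
          rw [used_update, Finset.card_insert_of_notMem hq1]
        refine ih (upd U R (fun i => π q.1 i q.2)) (Function.update T q.1 (some q.2)) Z ?_ ?_
        · have h4 : ∑ i', #(upd U R (fun i => π q.1 i q.2) i') ≤ ∑ i', #(U i') := by
            refine Finset.sum_le_sum (fun i' _ => ?_)
            apply Finset.card_le_card
            unfold upd
            split_ifs
            · exact Finset.erase_subset _ _
            · exact subset_rfl
          rw [hcard]
          omega
        · refine ⟨?_, ?_, ?_, ?_, ?_⟩
          · intro i'
            by_cases h : i' ∈ R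
            · have h5 := card_upd_of_mem U R (fun i => π q.1 i q.2) i' h (hq3 i')
              have h6 := hR i' h
              omega
            · rw [upd_of_not_mem _ _ _ _ h]
              exact hI.h0 i'
          · intro i' v' hv'
            by_cases h : v' ∈ U i'
            · right
              have : v' = π q.1 i' q.2 := by
                unfold upd at hv'
                split_ifs at hv' with h6
                · by_contra hne
                  exact hv' (Finset.mem_erase.2 ⟨hne, h⟩)
                · exact absurd h hv'
              refine ⟨q.1, ?_⟩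
              rw [Function.update_self, this, Equiv.symm_apply_apply]
            · rcases hI.h1 i' v' h with h6 | ⟨j, hj⟩
              · exact Or.inl h6
              · right
                refine ⟨j, ?_⟩
                have hjq : j ≠ q.1 := by
                  rintro rfl
                  apply hq1
                  rw [mem_used, hj]
                  rfl
                rw [Function.update_of_ne hjq]
                exact hj
          · intro j c hjc
            by_cases h : j = q.1
            · subst h
              rw [Function.update_self] at hjc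
              have : q.2 = c := Option.some.inj hjc
              rw [← this]
              exact hq2
            · rw [Function.update_of_ne h] at hjc
              exact hI.h2 j c hjc
          · rw [hcard]
            have h5 : ((#(used T) + 1 : ℕ) : ℝ) / (512 * (Fintype.card S : ℝ)) =
                (#(used T) : ℝ) / (512 * (Fintype.card S : ℝ)) +
                  1 / (512 * (Fintype.card S : ℝ)) := by
              rw [← add_div]; push_cast; rfl
            rw [h5]
            linarith
          · rw [hcard]
            omega

end

theorem process_ok : St_Process := by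
  intro lam hlam
  refine ⟨eps lam, eps_pos lam hlam, 2048 * lam ^ 4, ?_⟩
  intro S _ _ hN π hQ C hC
  have hlamR : (1 : ℝ) ≤ (lam : ℝ) := by exact_mod_cast hlam
  have hNR : 2048 * (lam : ℝ) ^ 4 ≤ (Fintype.card S : ℝ) := by exact_mod_cast hN
  have hlam4 : (lam : ℝ) ≤ (lam : ℝ) ^ 4 := by
    calc (lam : ℝ) = (lam : ℝ) ^ 1 := (pow_one _).symm
      _ ≤ _ := pow_le_pow_right₀ hlamR (by norm_num)
  have hNpos : (0 : ℝ) < (Fintype.card S : ℝ) := by linarith
  have hlamN : lam ≤ Fintype.card S := by
    have : (lam : ℝ) ≤ (Fintype.card S : ℝ) := by linarith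
    exact_mod_cast this
  obtain ⟨s, hs⟩ : ∃ s : ℕ, s = Fintype.card S / lam := ⟨_, rfl⟩
  have hs1 : 1 ≤ s := by
    rw [hs]
    exact (Nat.one_le_div_iff (by omega)).2 hlamN
  have hs2 : lam * s ≤ Fintype.card S := by
    rw [hs]
    exact Nat.mul_div_le _ _
  have hs3 : (Fintype.card S : ℝ) / (2 * (lam : ℝ)) ≤ (s : ℝ) := by
    have h1 : Fintype.card S < lam * (s + 1) := by
      rw [hs]
      exact Nat.lt_mul_div_succ _ (by omega)
    have h2 : Fintype.card S ≤ s * (2 * lam) := by nlinarith
    rw [div_le_iff₀ (by positivity)]
    exact_mod_cast h2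
  refine iter π C hlam hN rfl hQ s hs3 hs2
    (lam * Fintype.card S + 8 * Fintype.card S)
    (fun _ => univ) (fun _ => none) ∅ ?_ ?_
  · have : 8 * Fintype.card S - #(used (fun _ : Fin (64 * Fintype.card S) => (none : Option S))) ≤
        8 * Fintype.card S := Nat.sub_le _ _
    simp only [Finset.card_univ, Finset.sum_const, Fintype.card_fin, smul_eq_mul]
    omega
  · have hused : used (fun _ : Fin (64 * Fintype.card S) => (none : Option S)) = ∅ := by
      unfold used
      simp
    refine ⟨?_, ?_, ?_, ?_, ?_⟩
    · intro i
      rw [Finset.card_univ]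
      calc s = 1 * s := (one_mul s).symm
        _ ≤ lam * s := Nat.mul_le_mul_right _ hlam
        _ ≤ _ := hs2
    · intro i v hv
      exact absurd (Finset.mem_univ v) hv
    · intro j c h
      exact absurd h (by simp)
    · rw [hused, Finset.card_empty, Finset.card_empty]
      have hPP : PP (fun _ => univ : Fin lam → Finset S) = 1 := by
        unfold PP
        simp only [Finset.card_univ]
        rw [div_self hNpos.ne']
        simp
      have hNC : (NC π C (fun _ => univ) : ℝ) ≤ 4 * (Fintype.card S : ℝ) ^ 2 := by
        have h1 : NC π C (fun _ => univ) ≤ #C := by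
          unfold NC
          exact Finset.card_filter_le _ _
        exact_mod_cast h1.trans hC
      have hdh : dh π C (fun _ => univ) ≤ 1 / 16 := by
        unfold dh
        rw [hPP, mul_one, div_le_div_iff₀ (by push_cast; positivity) (by norm_num)]
        push_cast
        nlinarith
      have hwt : ∑ i, wt s 0 (fun _ => univ : Fin lam → Finset S) i ≤ (lam : ℝ) := by
        calc ∑ i, wt s 0 (fun _ => univ : Fin lam → Finset S) i ≤ ∑ _i : Fin lam, (1 : ℝ) := by
              refine Finset.sum_le_sum (fun i _ => ?_)
              unfold wt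
              split_ifs
              · rw [Finset.card_univ]
                simp
              · norm_num
          _ = (lam : ℝ) := by simp
      have h5 : 1 / (32 * (lam : ℝ)) * ∑ i, wt s 0 (fun _ => univ : Fin lam → Finset S) i ≤
          1 / 32 := by
        calc _ ≤ 1 / (32 * (lam : ℝ)) * (lam : ℝ) :=
              mul_le_mul_of_nonneg_left hwt (by positivity)
          _ = 1 / 32 := by field_simp
      unfold Phi
      simp only [Nat.cast_zero, zero_div, add_zero]
      linarith
    · rw [hused]
      simp

end Pool.Agent.R982.TC.Process
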