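import Mathlib

/-!
# Monochromatic tree covers of edge-coloured dense graphs (MP_3e3c2c_co)

Definitions and the statements of the pieces of the disproof.
-/

open Finset Filter
open scoped ENNReal

namespace Pool.Agent.R982.TC

/-- An `r`-edge-coloured simple graph on the vertex type `A`. -/
structure ColGraph (A : Type) (r : ℕ) where
  /-- the underlying simple graph -/
  G : SimpleGraph A
  /-- the colouring of the edges -/
  χ : G.edgeSet → Fin r

namespace ColGraph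

/-- A monochromatic tree: a subgraph that is a tree and whose edges all have the same colour
(a single vertex is allowed). -/
def IsMonoTree {A : Type} {r : ℕ} (X : ColGraph A r) (H : X.G.Subgraph) : Prop :=
  H.coe.IsTree ∧ ∃ i : Fin r, ∀ (e : Sym2 A) (he : e ∈ H.edgeSet),
    X.χ ⟨e, H.edgeSet_subset he⟩ = i

/-- There is a family of `k` monochromatic trees whose vertex sets together contain all the
vertices. -/
def HasTreeCover {A : Type} {r : ℕ} (X : ColGraph A r) (k : ℕ) : Prop :=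
  ∃ F : Fin k → X.G.Subgraph, (∀ i, X.IsMonoTree (F i)) ∧ ∀ v : A, ∃ i, v ∈ (F i).verts

/-- The minimum size of a tree cover (by convention `⊤` if there is none, which never happens
for a finite graph and at least one colour). -/
noncomputable def tc {A : Type} {r : ℕ} (X : ColGraph A r) : ℕ∞ :=
  ⨅ (k : ℕ) (_ : X.HasTreeCover k), (k : ℕ∞)

/-- The minimum degree (ignoring colours) is at least `(1 - δ) n`. -/
def MinDeg {n r : ℕ} (X : ColGraph (Fin n) r) (δ : ℝ) : Prop :=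
  ∀ v : Fin n, (1 - δ) * (n : ℝ) ≤ ((X.G.neighborSet v).ncard : ℝ)

end ColGraph

/-- `tc_r(δ) = limsup_{n → ∞} max_{G ∈ 𝒢(n, r, δ)} tc(G)`. -/
noncomputable def tcr (r : ℕ) (δ : ℝ) : ℕ∞ :=
  limsup (fun n : ℕ => ⨆ X : {X : ColGraph (Fin n) r // X.MinDeg δ}, X.1.tc) atTop

/-- Q1 of the problem: there is a constant `K > 0` with
`tc_r(δ) ≤ K r ⌈r / log (1/δ)⌉` for all `r ≥ 2`, `δ ∈ (0,1)`. -/
def Q1 : Prop :=
  ∃ K : ℝ, 0 < K ∧ ∀ r : ℕ, 2 ≤ r → ∀ δ : ℝ, 0 < δ → δ < 1 →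
    ((tcr r δ : ℕ∞) : ℝ≥0∞) ≤
      ENNReal.ofReal (K * (r : ℝ) * ((⌈(r : ℝ) / Real.log (1 / δ)⌉ : ℤ) : ℝ))

/-! ### The pieces -/

/-- The number of symbols `c` such that the class `{(i, π j i c) : i}` of colour `j` is contained
in `⋃ i, {i} × W i`. -/
def X {r lam : ℕ} {S : Type} [Fintype S] [DecidableEq S] (π : Fin r → Fin lam → (S ≃ S))
    (j : Fin r) (W : Fin lam → Finset S) : ℕ :=
  #{c : S | ∀ i, π j i c ∈ W i}

/-- Quasi-randomness of the family of partitions. -/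
def QR {r lam : ℕ} {S : Type} [Fintype S] [DecidableEq S] (π : Fin r → Fin lam → (S ≃ S))
    (ε : ℝ) : Prop :=
  (∀ W : Fin lam → Finset S,
    ∃ B : Finset (Fin r), (#B : ℝ) ≤ ε * r ∧ ∀ j, j ∉ B →
      |(X π j W : ℝ) - (Fintype.card S : ℝ) * ∏ i, ((#(W i) : ℝ) / (Fintype.card S : ℝ))|
        ≤ ε * (Fintype.card S : ℝ)) ∧
  (∀ i i' : Fin lam, i ≠ i' → ∀ v v' : S,
    (#{j : Fin r | ∃ c, π j i c = v ∧ π j i' c = v'} : ℝ) ≤ ε * r)

/-- Piece A: existence of the quasi-random family (random affine maps over `ZMod p`). -/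
def St_Design : Prop :=
  ∀ (lam : ℕ) (ε : ℝ), 0 < ε → ∃ N0 : ℕ, ∀ (p : ℕ) [Fact p.Prime], N0 ≤ p →
    ∃ π : Fin (64 * Fintype.card (ZMod p)) → Fin lam → (ZMod p ≃ ZMod p), QR π ε

/-- Piece B: the robust near-perfect partial transversal. -/
def St_Process : Prop :=
  ∀ lam : ℕ, 1 ≤ lam → ∃ ε : ℝ, 0 < ε ∧ ∃ N0 : ℕ,
    ∀ (S : Type) [Fintype S] [DecidableEq S], N0 ≤ Fintype.card S →
    ∀ π : Fin (64 * Fintype.card S) → Fin lam → (S ≃ S), QR π ε →
    ∀ C : Finset (Fin (64 * Fintype.card S) × S), #C ≤ 4 * (Fintype.card S) ^ 2 →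
    ∃ T : Fin (64 * Fintype.card S) → Option S,
      (∀ j c, T j = some c → (j, c) ∉ C) ∧
      Nat.card {v : Fin lam × S // ∀ j, T j ≠ some ((π j v.1).symm v.2)} ≤
        2 * Fintype.card S

/-- Piece C: from a robust structure to a lower bound for `tcr`. -/
def St_Graph : Prop :=
  ∀ (r k u : ℕ) (V S : Type) [Fintype V] [Fintype S] (x : Fin r → V → S) (δ : ℝ),
    0 < δ → δ < 1 → (u : ℝ) < δ * (Fintype.card V : ℝ) →
    (∀ C : Finset (Fin r × S), #C ≤ k → ∃ T : Fin r → Option S,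
      (∀ j c, T j = some c → (j, c) ∉ C) ∧
      Nat.card {v : V // ∀ j, T j ≠ some (x j v)} ≤ u) →
    (((k + 1 : ℕ) : ℕ∞)) ≤ tcr (r + 1) δ

/-- Piece M: monotonicity in the number of colours. -/
def St_Mono : Prop :=
  ∀ (r r' : ℕ) (δ : ℝ), 1 ≤ r → r ≤ r' → tcr r δ ≤ tcr r' δ

end Pool.Agent.R982.TC
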