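import Mathlib
import Pool.Agent.R982.TC.Defs

/-!
# Piece A: existence of the quasi-random family (random affine maps over `ZMod p`)
-/

set_option autoImplicit false

open Finset Filter

namespace Pool.Agent.R982.TC.Design

/-- general union bound over samples -/
theorem union_bound {PP I : Type} [Fintype PP] [DecidableEq PP] [Nonempty PP] [Fintype I]
    (B : I → Finset PP) (η : ℝ) (hη : 0 < η) (hη1 : η ≤ 1)
    (hB : ∀ k, (#(B k) : ℝ) ≤ η * Fintype.card PP) (r l : ℕ)
    (h : (Fintype.card I : ℝ) * 2 ^ r * η ^ l < 1) :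
    ∃ d : Fin r → PP, ∀ k, #{j | d j ∈ B k} < l := by
  by_contra hcon
  push Not at hcon
  have hP : (0 : ℝ) < Fintype.card PP := by exact_mod_cast Fintype.card_pos
  have key : ∀ k, ∑ d : Fin r → PP, ∏ j, (1 + if d j ∈ B k then η⁻¹ else 0) ≤
      (2 * Fintype.card PP : ℝ) ^ r := by
    intro k
    have e1 : ∑ d : Fin r → PP, ∏ j, (1 + if d j ∈ B k then η⁻¹ else 0) =
        (∑ x : PP, (1 + if x ∈ B k then η⁻¹ else 0)) ^ r := by
      rw [Fintype.sum_pow]
    rw [e1]
    apply pow_le_pow_left₀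
    · apply Finset.sum_nonneg
      intro x _
      split_ifs <;> positivity
    · rw [Finset.sum_add_distrib]
      simp only [Finset.sum_const, Finset.card_univ, nsmul_eq_mul, mul_one]
      rw [← Finset.sum_filter]
      simp only [Finset.sum_const, nsmul_eq_mul, Finset.filter_mem_eq_inter, Finset.univ_inter]
      have := hB k
      have h2 : (#(B k) : ℝ) * η⁻¹ ≤ Fintype.card PP := by
        rw [← div_eq_mul_inv, div_le_iff₀ hη]
        linarith
      linarith
  have low : ∀ d : Fin r → PP, (1 : ℝ) ≤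
      ∑ k : I, η ^ l * ∏ j, (1 + if d j ∈ B k then η⁻¹ else 0) := by
    intro d
    obtain ⟨k, hk⟩ := hcon d
    have hnn : ∀ k' ∈ (Finset.univ : Finset I),
        0 ≤ η ^ l * ∏ j, (1 + if d j ∈ B k' then η⁻¹ else 0) := by
      intro k' _
      apply mul_nonneg (by positivity)
      apply Finset.prod_nonneg
      intro j _
      split_ifs <;> positivity
    refine le_trans ?_ (Finset.single_le_sum hnn (Finset.mem_univ k))
    have h1 : (η⁻¹) ^ (#{j | d j ∈ B k}) ≤ ∏ j, (1 + if d j ∈ B k then η⁻¹ else 0) := by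
      have : (η⁻¹) ^ (#{j | d j ∈ B k}) = ∏ j, (if d j ∈ B k then η⁻¹ else 1) := by
        rw [Finset.prod_ite]
        simp
      rw [this]
      apply Finset.prod_le_prod
      · intro j _
        split_ifs <;> positivity
      · intro j _
        split_ifs
        · linarith
        · simp
    have h2 : (η⁻¹) ^ l ≤ (η⁻¹) ^ (#{j | d j ∈ B k}) := by
      apply pow_le_pow_right₀ _ hk
      exact (one_le_inv₀ hη).2 hη1
    calc (1 : ℝ) = η ^ l * (η⁻¹) ^ l := by
          rw [← mul_pow, mul_inv_cancel₀ hη.ne', one_pow]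
      _ ≤ _ := by
          apply mul_le_mul_of_nonneg_left (h2.trans h1)
          positivity
  have tot : ((Fintype.card PP : ℝ)) ^ r ≤
      ∑ d : Fin r → PP, ∑ k : I, η ^ l * ∏ j, (1 + if d j ∈ B k then η⁻¹ else 0) := by
    have := Finset.sum_le_sum (s := (Finset.univ : Finset (Fin r → PP))) (fun d _ => low d)
    refine le_trans ?_ this
    simp
  rw [Finset.sum_comm] at tot
  have tot2 : ∑ k : I, ∑ d : Fin r → PP, η ^ l * ∏ j, (1 + if d j ∈ B k then η⁻¹ else 0) ≤
      ∑ k : I, η ^ l * (2 * Fintype.card PP : ℝ) ^ r := by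
    apply Finset.sum_le_sum
    intro k _
    rw [← Finset.mul_sum]
    apply mul_le_mul_of_nonneg_left (key k)
    positivity
  simp only [Finset.sum_const, Finset.card_univ, nsmul_eq_mul] at tot2
  have hpos : (0 : ℝ) < (Fintype.card PP : ℝ) ^ r := by positivity
  have h3 : (Fintype.card I : ℝ) * (η ^ l * (2 * Fintype.card PP : ℝ) ^ r) =
      ((Fintype.card I : ℝ) * 2 ^ r * η ^ l) * (Fintype.card PP : ℝ) ^ r := by
    rw [mul_pow]; ring
  have h4 := tot.trans tot2
  rw [h3] at h4
  have h5 : ((Fintype.card I : ℝ) * 2 ^ r * η ^ l) * (Fintype.card PP : ℝ) ^ r <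
      1 * (Fintype.card PP : ℝ) ^ r := by
    apply mul_lt_mul_of_pos_right h hpos
  linarith

/-- parameters of an affine map -/
abbrev P (p : ℕ) : Type := (ZMod p)ˣ × ZMod p

/-- the affine bijection `c ↦ a c + b` -/
def aff {p : ℕ} (x : P p) : ZMod p ≃ ZMod p := (Units.mulLeft x.1).trans (Equiv.addRight x.2)

theorem aff_apply {p : ℕ} (x : P p) (c : ZMod p) : aff x c = (x.1 : ZMod p) * c + x.2 := rfl

/-- indicator -/
noncomputable def ind {p : ℕ} (W : Finset (ZMod p)) (x : P p) (c : ZMod p) : ℝ :=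
  if aff x c ∈ W then 1 else 0

/-- the count -/
def Y {p lam : ℕ} [NeZero p] (d : Fin lam → P p) (W : Fin lam → Finset (ZMod p)) : ℕ :=
  #{c : ZMod p | ∀ i, aff (d i) c ∈ W i}

variable {p : ℕ} [hp : Fact p.Prime] {lam : ℕ}

theorem Y_eq (d : Fin lam → P p) (W : Fin lam → Finset (ZMod p)) :
    (Y d W : ℝ) = ∑ c, ∏ i, ind (W i) (d i) c := by
  unfold Y ind
  rw [Finset.card_filter]
  push_cast
  apply Finset.sum_congr rfl
  intro c _
  by_cases h : ∀ i, aff (d i) c ∈ W i
  · rw [if_pos h]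
    rw [Finset.prod_eq_one]
    intro i _
    rw [if_pos (h i)]
  · rw [if_neg h]
    push Not at h
    obtain ⟨i, hi⟩ := h
    rw [Finset.prod_eq_zero (Finset.mem_univ i)]
    rw [if_neg hi]

theorem card_P : (Fintype.card (P p) : ℝ) = ((p : ℝ) - 1) * p := by
  rw [Fintype.card_prod, ZMod.card_units, ZMod.card]
  push_cast
  rw [Nat.cast_sub hp.out.one_le]
  simp

theorem p_pos : (0 : ℝ) < p := by exact_mod_cast hp.out.pos

theorem p_one : (1 : ℝ) ≤ p := by exact_mod_cast hp.out.one_le

theorem S1 (W : Finset (ZMod p)) (c : ZMod p) :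
    ∑ x : P p, ind W x c = (Fintype.card (P p) : ℝ) * ((#W : ℝ) / p) := by
  have h0 : ∀ a : (ZMod p)ˣ, ∑ b : ZMod p, ind W (a, b) c = #W := by
    intro a
    unfold ind
    rw [Finset.sum_ite]
    simp only [Finset.sum_const, nsmul_eq_mul, mul_one, mul_zero, add_zero]
    have : ({b : ZMod p | aff ((a, b) : P p) c ∈ W} : Finset (ZMod p)) =
        W.map (Equiv.subRight ((a : ZMod p) * c)).toEmbedding := by
      ext b
      simp only [Finset.mem_filter, Finset.mem_univ, true_and, Finset.mem_map,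
        Equiv.coe_toEmbedding, Equiv.subRight_apply, aff_apply]
      constructor
      · intro h
        exact ⟨_, h, by ring⟩
      · rintro ⟨w, hw, rfl⟩
        simpa using hw
    rw [this, Finset.card_map]
  rw [Fintype.sum_prod_type]
  simp only [h0]
  rw [Finset.sum_const, Finset.card_univ, ZMod.card_units, nsmul_eq_mul, card_P,
    Nat.cast_sub hp.out.one_le]
  have := p_pos (p := p)
  field_simp
  push_cast
  ring

theorem S2 (W : Finset (ZMod p)) (c c' : ZMod p) (hc : c ≠ c') :
    ∑ x : P p, ind W x c * ind W x c' ≤ (Fintype.card (P p) : ℝ) * ((#W : ℝ) / p) ^ 2 := by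
  have h0 : ∑ x : P p, ind W x c * ind W x c' =
      #{x : P p | aff x c ∈ W ∧ aff x c' ∈ W} := by
    rw [Finset.card_filter]
    push_cast
    apply Finset.sum_congr rfl
    intro x _
    unfold ind
    by_cases h1 : aff x c ∈ W <;> by_cases h2 : aff x c' ∈ W <;> simp [h1, h2]
  have h1 : #{x : P p | aff x c ∈ W ∧ aff x c' ∈ W} ≤ #(W.offDiag) := by
    apply Finset.card_le_card_of_injOn (fun x => (aff x c, aff x c'))
    · intro x hx
      simp only [Finset.coe_filter, Finset.mem_univ, true_and, Set.mem_ofPred_eq] at hx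
      simp only [Finset.coe_offDiag, Set.mem_offDiag, Finset.mem_coe]
      refine ⟨hx.1, hx.2, ?_⟩
      intro h
      exact hc ((aff x).injective h)
    · rintro ⟨a, b⟩ _ ⟨a', b'⟩ _ h
      simp only [Prod.mk.injEq, aff_apply] at h
      obtain ⟨h1, h2⟩ := h
      have hsub : ((a : ZMod p) - a') * (c - c') = 0 := by linear_combination h1 - h2
      have hne : c - c' ≠ 0 := sub_ne_zero.2 hc
      have ha : (a : ZMod p) - a' = 0 := by
        rcases mul_eq_zero.1 hsub with h | h
        · exact h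
        · exact absurd h hne
      have ha' : a = a' := Units.ext (sub_eq_zero.1 ha)
      subst ha'
      simp only [Prod.mk.injEq, true_and]
      exact add_left_cancel h1
  rw [Finset.offDiag_card] at h1
  have hW : (#W : ℝ) ≤ p := by
    have := Finset.card_le_univ W
    rw [ZMod.card] at this
    exact_mod_cast this
  have hle : #W ≤ #W * #W := by
    rcases Nat.eq_zero_or_pos (#W) with h | h
    · simp [h]
    · exact Nat.le_mul_of_pos_left _ h
  have h2 : ((#{x : P p | aff x c ∈ W ∧ aff x c' ∈ W} : ℕ) : ℝ) ≤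
      (#W : ℝ) * #W - #W := by
    have := (Nat.cast_le (α := ℝ)).2 h1
    rwa [Nat.cast_sub hle, Nat.cast_mul] at this
  rw [h0]
  refine h2.trans ?_
  rw [card_P]
  have hpp := p_pos (p := p)
  rw [div_pow, ← mul_div_assoc, le_div_iff₀ (by positivity)]
  have hnn : (0 : ℝ) ≤ #W := Nat.cast_nonneg _
  nlinarith [mul_nonneg (mul_nonneg hnn (sub_nonneg.2 hW)) hpp.le]

/-- product formula -/
theorem prod_form (g : Fin lam → P p → ℝ) :
    ∑ d : Fin lam → P p, ∏ i, g i (d i) = ∏ i, ∑ x, g i x := by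
  rw [Finset.prod_univ_sum, Fintype.piFinset_univ]

/-- the mean -/
noncomputable def mu (W : Fin lam → Finset (ZMod p)) : ℝ := (p : ℝ) * ∏ i, ((#(W i) : ℝ) / p)

theorem card_PP : (Fintype.card (Fin lam → P p) : ℝ) = (Fintype.card (P p) : ℝ) ^ lam := by
  rw [Fintype.card_fun, Fintype.card_fin]
  push_cast
  rfl

theorem M1 (W : Fin lam → Finset (ZMod p)) :
    ∑ d : Fin lam → P p, (Y d W : ℝ) = Fintype.card (Fin lam → P p) * mu W := by
  simp only [Y_eq]
  rw [Finset.sum_comm]
  have e : ∀ c : ZMod p, ∑ d : Fin lam → P p, ∏ i, ind (W i) (d i) c =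
      ∏ i, ((Fintype.card (P p) : ℝ) * ((#(W i) : ℝ) / p)) := by
    intro c
    rw [prod_form (fun i x => ind (W i) x c)]
    simp only [S1]
  simp only [e]
  rw [Finset.sum_const, Finset.card_univ, ZMod.card, nsmul_eq_mul, Finset.prod_mul_distrib,
    Finset.prod_const, Finset.card_univ, Fintype.card_fin, card_PP]
  unfold mu
  ring

theorem M2 (W : Fin lam → Finset (ZMod p)) :
    ∑ d : Fin lam → P p, (Y d W : ℝ) ^ 2 ≤
      Fintype.card (Fin lam → P p) * (mu W + mu W ^ 2) := by
  have e : ∀ d : Fin lam → P p, (Y d W : ℝ) ^ 2 =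
      ∑ c, ∑ c', ∏ i, (ind (W i) (d i) c * ind (W i) (d i) c') := by
    intro d
    rw [Y_eq, sq, Finset.sum_mul_sum]
    simp only [Finset.prod_mul_distrib]
  have hind : ∀ (V : Finset (ZMod p)) (x : P p) (c : ZMod p), 0 ≤ ind V x c := by
    intro V x c
    unfold ind
    split_ifs <;> norm_num
  have hind2 : ∀ (V : Finset (ZMod p)) (x : P p) (c : ZMod p), ind V x c * ind V x c = ind V x c := by
    intro V x c
    unfold ind
    split_ifs <;> norm_num
  set Q : ℝ := (Fintype.card (P p) : ℝ) with hQ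
  have hQ0 : 0 ≤ Q := Nat.cast_nonneg _
  have hpp := p_pos (p := p)
  have hw0 : ∀ i, 0 ≤ (#(W i) : ℝ) / p := fun i => by positivity
  have term : ∀ c c', ∑ d : Fin lam → P p, ∏ i, (ind (W i) (d i) c * ind (W i) (d i) c') ≤
      (if c = c' then Q ^ lam * ∏ i, ((#(W i) : ℝ) / p) else 0) +
        Q ^ lam * (∏ i, ((#(W i) : ℝ) / p)) ^ 2 := by
    intro c c'
    rw [prod_form (fun i x => ind (W i) x c * ind (W i) x c')]
    by_cases h : c = c'
    · subst h
      simp only [hind2, S1, if_true]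
      rw [Finset.prod_mul_distrib, Finset.prod_const, Finset.card_univ, Fintype.card_fin]
      have : 0 ≤ Q ^ lam * (∏ i, ((#(W i) : ℝ) / p)) ^ 2 := by positivity
      linarith
    · rw [if_neg h, zero_add]
      have : Q ^ lam * (∏ i, ((#(W i) : ℝ) / p)) ^ 2 = ∏ i : Fin lam, (Q * ((#(W i) : ℝ) / p) ^ 2) := by
        rw [Finset.prod_mul_distrib, Finset.prod_const, Finset.card_univ, Fintype.card_fin,
          Finset.prod_pow]
      rw [this]
      apply Finset.prod_le_prod
      · intro i _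
        apply Finset.sum_nonneg
        intro x _
        exact mul_nonneg (hind _ _ _) (hind _ _ _)
      · intro i _
        exact S2 (W i) c c' h
  calc ∑ d : Fin lam → P p, (Y d W : ℝ) ^ 2
      = ∑ c, ∑ c', ∑ d : Fin lam → P p, ∏ i, (ind (W i) (d i) c * ind (W i) (d i) c') := by
        simp only [e]
        rw [Finset.sum_comm]
        apply Finset.sum_congr rfl
        intro c _
        rw [Finset.sum_comm]
    _ ≤ ∑ c : ZMod p, ∑ c' : ZMod p, ((if c = c' then Q ^ lam * ∏ i, ((#(W i) : ℝ) / p) else 0) +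
        Q ^ lam * (∏ i, ((#(W i) : ℝ) / p)) ^ 2) := by
        apply Finset.sum_le_sum
        intro c _
        apply Finset.sum_le_sum
        intro c' _
        exact term c c'
    _ = Fintype.card (Fin lam → P p) * (mu W + mu W ^ 2) := by
        simp only [Finset.sum_add_distrib, Finset.sum_ite_eq, Finset.mem_univ, if_true,
          Finset.sum_const, Finset.card_univ, ZMod.card, nsmul_eq_mul]
        rw [card_PP]
        unfold mu
        ring

theorem mu_nonneg (W : Fin lam → Finset (ZMod p)) : 0 ≤ mu W := by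
  unfold mu
  have hpp := p_pos (p := p)
  positivity

theorem mu_le (W : Fin lam → Finset (ZMod p)) : mu W ≤ p := by
  unfold mu
  have hpp := p_pos (p := p)
  have : ∏ i, ((#(W i) : ℝ) / p) ≤ 1 := by
    apply Finset.prod_le_one
    · intro i _
      positivity
    · intro i _
      rw [div_le_one hpp]
      have := Finset.card_le_univ (W i)
      rw [ZMod.card] at this
      exact_mod_cast this
  nlinarith

theorem M3 (W : Fin lam → Finset (ZMod p)) :
    ∑ d : Fin lam → P p, ((Y d W : ℝ) - mu W) ^ 2 ≤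
      Fintype.card (Fin lam → P p) * p := by
  have e : ∀ d : Fin lam → P p, ((Y d W : ℝ) - mu W) ^ 2 =
      (Y d W : ℝ) ^ 2 - 2 * mu W * (Y d W : ℝ) + mu W ^ 2 := by
    intro d
    ring
  simp only [e]
  rw [Finset.sum_add_distrib, Finset.sum_sub_distrib, ← Finset.mul_sum, M1, Finset.sum_const,
    Finset.card_univ, nsmul_eq_mul]
  have h2 := M2 W
  have h3 := mu_le W
  have h4 : (0 : ℝ) ≤ Fintype.card (Fin lam → P p) := Nat.cast_nonneg _
  nlinarith [mul_le_mul_of_nonneg_left h3 h4]

open Classical in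
/-- the exceptional set -/
noncomputable def Bad (ε : ℝ) (W : Fin lam → Finset (ZMod p)) : Finset (Fin lam → P p) :=
  Finset.univ.filter (fun d => ε * p < |(Y d W : ℝ) - mu W|) ∪
    (if mu W ≤ 1 / p then Finset.univ.filter (fun d => 1 ≤ Y d W) else ∅)

theorem card_bad1 (ε : ℝ) (hε : 0 < ε) (W : Fin lam → Finset (ZMod p)) :
    (#{d : Fin lam → P p | ε * p < |(Y d W : ℝ) - mu W|} : ℝ) ≤
      (1 / ε ^ 2) / p * Fintype.card (Fin lam → P p) := by
  have hpp := p_pos (p := p)
  have h1 : (#{d : Fin lam → P p | ε * p < |(Y d W : ℝ) - mu W|} : ℝ) * (ε * p) ^ 2 ≤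
      ∑ d : Fin lam → P p, ((Y d W : ℝ) - mu W) ^ 2 := by
    rw [← nsmul_eq_mul]
    calc #{d : Fin lam → P p | ε * p < |(Y d W : ℝ) - mu W|} • (ε * p) ^ 2
        ≤ ∑ d ∈ {d : Fin lam → P p | ε * p < |(Y d W : ℝ) - mu W|},
            ((Y d W : ℝ) - mu W) ^ 2 := by
          apply Finset.card_nsmul_le_sum
          intro d hd
          simp only [Finset.mem_filter, Finset.mem_univ, true_and] at hd
          rw [← sq_abs ((Y d W : ℝ) - mu W)]
          apply pow_le_pow_left₀ (by positivity) hd.le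
      _ ≤ _ := by
          apply Finset.sum_le_sum_of_subset_of_nonneg (Finset.filter_subset _ _)
          intro d _ _
          positivity
  have h2 := h1.trans (M3 W)
  have h3 : (0 : ℝ) < (ε * p) ^ 2 := by positivity
  rw [← le_div_iff₀ h3] at h2
  refine h2.trans (le_of_eq ?_)
  field_simp

theorem card_bad2 (W : Fin lam → Finset (ZMod p)) (hW : mu W ≤ 1 / p) :
    (#{d : Fin lam → P p | 1 ≤ Y d W} : ℝ) ≤
      1 / p * Fintype.card (Fin lam → P p) := by
  have h1 : (#{d : Fin lam → P p | 1 ≤ Y d W} : ℝ) ≤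
      ∑ d : Fin lam → P p, (Y d W : ℝ) := by
    have := Finset.card_nsmul_le_sum ({d : Fin lam → P p | 1 ≤ Y d W})
      (fun d => (Y d W : ℝ)) 1 (by
        intro d hd
        simp only [Finset.mem_filter, Finset.mem_univ, true_and] at hd
        exact_mod_cast hd)
    rw [nsmul_eq_mul, mul_one] at this
    refine this.trans ?_
    apply Finset.sum_le_sum_of_subset_of_nonneg (Finset.filter_subset _ _)
    intro d _ _
    positivity
  rw [M1] at h1
  refine h1.trans ?_
  rw [mul_comm (1 / (p : ℝ))]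
  apply mul_le_mul_of_nonneg_left hW (Nat.cast_nonneg _)

theorem card_Bad (ε : ℝ) (hε : 0 < ε) (W : Fin lam → Finset (ZMod p)) :
    (#(Bad ε W) : ℝ) ≤ (1 / ε ^ 2 + 1) / p * Fintype.card (Fin lam → P p) := by
  have hpp := p_pos (p := p)
  unfold Bad
  have h1 := card_bad1 ε hε W
  have hu := (Nat.cast_le (α := ℝ)).2 (Finset.card_union_le
    ({d | ε * p < |(Y d W : ℝ) - mu W|} : Finset (Fin lam → P p))
    (if mu W ≤ 1 / p then ({d | 1 ≤ Y d W} : Finset (Fin lam → P p)) else ∅))
  refine le_trans (le_of_eq ?_) (hu.trans ?_)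
  · congr!
  · push_cast
    have h2 : ((#(if mu W ≤ 1 / p then ({d | 1 ≤ Y d W} : Finset (Fin lam → P p)) else ∅) : ℕ) : ℝ)
        ≤ 1 / p * Fintype.card (Fin lam → P p) := by
      split_ifs with h
      · exact card_bad2 W h
      · simp only [Finset.card_empty, Nat.cast_zero]
        positivity
    have h3 : (1 / ε ^ 2 + 1) / p * Fintype.card (Fin lam → P p) =
        (1 / ε ^ 2) / p * Fintype.card (Fin lam → P p) +
          1 / p * Fintype.card (Fin lam → P p) := by ring
    rw [h3]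
    exact add_le_add h1 h2

theorem exists_N0 (lam : ℕ) (ε : ℝ) (hε : 0 < ε) : ∃ N0 : ℕ, ∀ n : ℕ, N0 ≤ n →
    (1 / ε ^ 2 + 1) / (n : ℝ) ≤ 1 ∧
    (2 : ℝ) ^ (lam + 64) * ((1 / ε ^ 2 + 1) / (n : ℝ)) ^ (64 * ε) < 1 := by
  have t1 : Tendsto (fun n : ℕ => (1 / ε ^ 2 + 1) / (n : ℝ)) atTop (nhds 0) :=
    tendsto_const_div_atTop_nhds_zero_nat _
  have t2 : Tendsto (fun n : ℕ => (2 : ℝ) ^ (lam + 64) * ((1 / ε ^ 2 + 1) / (n : ℝ)) ^ (64 * ε))
      atTop (nhds ((2 : ℝ) ^ (lam + 64) * (0 : ℝ) ^ (64 * ε))) := by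
    apply Tendsto.const_mul
    exact t1.rpow_const (Or.inr (by positivity))
  rw [Real.zero_rpow (by positivity), mul_zero] at t2
  have e1 := t1.eventually (gt_mem_nhds (show (0 : ℝ) < 1 by norm_num))
  have e2 := t2.eventually (gt_mem_nhds (show (0 : ℝ) < 1 by norm_num))
  obtain ⟨N0, hN⟩ := eventually_atTop.1 (e1.and e2)
  exact ⟨N0, fun n hn => ⟨(hN n hn).1.le, (hN n hn).2⟩⟩

/-- the special rectangles -/
def Wp (i i' : Fin lam) (v v' : ZMod p) : Fin lam → Finset (ZMod p) :=
  fun k => if k = i then {v} else if k = i' then {v'} else Finset.univ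

theorem mu_Wp (i i' : Fin lam) (h : i ≠ i') (v v' : ZMod p) : mu (Wp i i' v v') = 1 / p := by
  have hpp := p_pos (p := p)
  unfold mu Wp
  have : ∀ k : Fin lam, ((#(if k = i then ({v} : Finset (ZMod p)) else if k = i' then {v'}
      else Finset.univ) : ℝ) / p) =
      (if k = i then 1 / (p : ℝ) else 1) * (if k = i' then 1 / (p : ℝ) else 1) := by
    intro k
    by_cases h1 : k = i
    · subst h1
      simp [h]
    · by_cases h2 : k = i'
      · rw [if_neg h1, if_neg h1, if_pos h2, if_pos h2]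
        simp
      · simp [h1, h2, ZMod.card, hpp.ne']
  simp only [this]
  rw [Finset.prod_mul_distrib, Finset.prod_ite_eq', Finset.prod_ite_eq']
  simp only [Finset.mem_univ, if_true]
  field_simp

theorem design_ok : St_Design := by
  intro lam ε hε
  obtain ⟨N0, hN⟩ := exists_N0 lam ε hε
  refine ⟨N0, ?_⟩
  intro p hp hNp
  obtain ⟨h1, h2⟩ := hN p hNp
  have hpp := p_pos (p := p)
  set R : ℕ := 64 * Fintype.card (ZMod p) with hR
  have hRp : R = 64 * p := by rw [hR, ZMod.card]
  have hcR : (R : ℝ) = 64 * p := by rw [hRp]; push_cast; ring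
  have hη : 0 < (1 / ε ^ 2 + 1) / (p : ℝ) := by positivity
  obtain ⟨d, hd⟩ := union_bound (PP := Fin lam → P p) (I := Fin lam → Finset (ZMod p))
    (fun W => Bad ε W) ((1 / ε ^ 2 + 1) / (p : ℝ)) hη h1 (fun W => card_Bad ε hε W) R
    (⌊ε * R⌋₊ + 1) (by
      rw [Fintype.card_fun, Fintype.card_finset, ZMod.card, Fintype.card_fin]
      have e1 : ((1 / ε ^ 2 + 1) / (p : ℝ)) ^ (⌊ε * R⌋₊ + 1) ≤
          (((1 / ε ^ 2 + 1) / (p : ℝ)) ^ (64 * ε)) ^ p := by
        rw [← Real.rpow_natCast, ← Real.rpow_mul_natCast hη.le]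
        apply Real.rpow_le_rpow_of_exponent_ge hη h1
        have := Nat.lt_floor_add_one (ε * (R : ℝ))
        push_cast
        rw [hcR] at this ⊢
        linarith
      have e2 : ((((2 ^ p) ^ lam : ℕ) : ℝ)) * 2 ^ R = ((2 : ℝ) ^ (lam + 64)) ^ p := by
        rw [hRp]
        push_cast
        rw [← pow_mul, ← pow_mul, ← pow_add]
        congr 1
        ring
      rw [e2]
      calc ((2 : ℝ) ^ (lam + 64)) ^ p * ((1 / ε ^ 2 + 1) / (p : ℝ)) ^ (⌊ε * R⌋₊ + 1)
          ≤ ((2 : ℝ) ^ (lam + 64)) ^ p * (((1 / ε ^ 2 + 1) / (p : ℝ)) ^ (64 * ε)) ^ p := by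
            apply mul_le_mul_of_nonneg_left e1 (by positivity)
        _ = ((2 : ℝ) ^ (lam + 64) * ((1 / ε ^ 2 + 1) / (p : ℝ)) ^ (64 * ε)) ^ p := by
            rw [mul_pow]
        _ < 1 := by
            apply pow_lt_one₀ _ h2 hp.out.ne_zero
            positivity)
  have hle : ∀ W : Fin lam → Finset (ZMod p), ((#{j | d j ∈ Bad ε W} : ℕ) : ℝ) ≤ ε * R := by
    intro W
    have h3 := hd W
    have h4 : #{j | d j ∈ Bad ε W} ≤ ⌊ε * R⌋₊ := Nat.lt_succ_iff.1 h3
    exact le_trans (by exact_mod_cast h4) (Nat.floor_le (by positivity))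
  refine ⟨fun j i => aff (d j i), ?_, ?_⟩
  · intro W
    refine ⟨({j | d j ∈ Bad ε W} : Finset (Fin R)), hle W, ?_⟩
    intro j hj
    have hj2 : d j ∉ Bad ε W := by
      intro h
      apply hj
      simp only [Finset.mem_filter, Finset.mem_univ, true_and]
      exact h
    unfold Bad at hj2
    rw [Finset.mem_union, not_or] at hj2
    have hj3 := hj2.1
    simp only [Finset.mem_filter, Finset.mem_univ, true_and, not_lt] at hj3
    have hX : (X (fun j i => aff (d j i)) j W : ℝ) = Y (d j) W := by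
      unfold X Y
      congr!
    rw [hX, show ((Fintype.card (ZMod p) : ℕ) : ℝ) = (p : ℝ) by rw [ZMod.card]]
    exact hj3
  · intro i i' hii v v'
    refine le_trans ?_ (hle (Wp i i' v v'))
    apply Nat.cast_le.2
    apply Finset.card_le_card
    intro j hj
    simp only [Finset.mem_filter, Finset.mem_univ, true_and] at hj ⊢
    obtain ⟨c, hc1, hc2⟩ := hj
    unfold Bad
    rw [Finset.mem_union]
    right
    rw [if_pos (mu_Wp i i' hii v v').le]
    simp only [Finset.mem_filter, Finset.mem_univ, true_and]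
    unfold Y
    rw [Nat.one_le_iff_ne_zero, ← Nat.pos_iff_ne_zero, Finset.card_pos]
    refine ⟨c, ?_⟩
    simp only [Finset.mem_filter, Finset.mem_univ, true_and]
    intro k
    unfold Wp
    by_cases h3 : k = i
    · subst h3
      simp [hc1]
    · by_cases h4 : k = i'
      · subst h4
        simp [h3, hc2]
      · simp [h3, h4]

end Pool.Agent.R982.TC.Design
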