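import Pool.Agent.R982.TC.Defs

/-!
# Piece B, basic definitions and the effect of removing vertices from the pools
-/

open Finset

namespace Pool.Agent.R982.TC.Process

variable {r lam : ℕ} {S : Type} [Fintype S] [DecidableEq S]
  (π : Fin r → Fin lam → (S ≃ S)) (C : Finset (Fin r × S))

/-- The class `q = (j,c)` lies inside the pools `U`. -/
def Ins (U : Fin lam → Finset S) (q : Fin r × S) : Prop := ∀ i, π q.1 i q.2 ∈ U i

instance (U : Fin lam → Finset S) (q : Fin r × S) : Decidable (Ins π U q) := by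
  unfold Ins; infer_instance

/-- number of deleted classes inside `U` -/
def NC (U : Fin lam → Finset S) : ℕ := #{q ∈ C | Ins π U q}

/-- number of deleted classes inside `U` through `(i,v)` -/
def dd (U : Fin lam → Finset S) (i : Fin lam) (v : S) : ℕ :=
  #{q ∈ C | Ins π U q ∧ π q.1 i q.2 = v}

/-- the product of the densities of the pools -/
noncomputable def PP (U : Fin lam → Finset S) : ℝ :=
  ∏ i, ((#(U i) : ℝ) / (Fintype.card S : ℝ))

/-- weight of the part `i` -/
noncomputable def wt (s t : ℕ) (U : Fin lam → Finset S) (i : Fin lam) : ℝ :=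
  if s < #(U i) then (9 / 8 : ℝ) ^ t * (1 / 2) ^ (Fintype.card S - #(U i)) else 0

/-- density of deleted classes -/
noncomputable def dh (U : Fin lam → Finset S) : ℝ :=
  (NC π C U : ℝ) / ((r : ℝ) * (Fintype.card S : ℝ) * PP U)

/-- the potential -/
noncomputable def Phi (s t : ℕ) (U : Fin lam → Finset S) : ℝ :=
  dh π C U + 1 / (32 * (lam : ℝ)) * ∑ i, wt s t U i

/-- remove `v i` from the pool `i` for all `i ∈ R` -/
def upd (U : Fin lam → Finset S) (R : Finset (Fin lam)) (v : Fin lam → S) :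
    Fin lam → Finset S := fun i => if i ∈ R then (U i).erase (v i) else U i

omit [Fintype S] in
lemma ins_upd (U : Fin lam → Finset S) (R : Finset (Fin lam)) (v : Fin lam → S)
    (q : Fin r × S) :
    Ins π (upd U R v) q ↔ Ins π U q ∧ ∀ i ∈ R, π q.1 i q.2 ≠ v i := by
  unfold Ins upd
  constructor
  · intro h
    refine ⟨fun i => ?_, fun i hi => ?_⟩
    · have := h i
      split_ifs at this with h1
      · exact Finset.mem_of_mem_erase this
      · exact this
    · have := h i
      rw [if_pos hi] at this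
      exact Finset.ne_of_mem_erase this
  · rintro ⟨h1, h2⟩ i
    split_ifs with hi
    · exact Finset.mem_erase.2 ⟨h2 i hi, h1 i⟩
    · exact h1 i

omit [Fintype S] in
lemma card_upd_of_mem (U : Fin lam → Finset S) (R : Finset (Fin lam)) (v : Fin lam → S)
    (i : Fin lam) (hi : i ∈ R) (hv : v i ∈ U i) : #(upd U R v i) + 1 = #(U i) := by
  unfold upd
  rw [if_pos hi]
  exact Finset.card_erase_add_one hv

omit [Fintype S] in
lemma upd_of_not_mem (U : Fin lam → Finset S) (R : Finset (Fin lam)) (v : Fin lam → S)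
    (i : Fin lam) (hi : i ∉ R) : upd U R v i = U i := by
  unfold upd
  rw [if_neg hi]

lemma PP_upd (U : Fin lam → Finset S) (R : Finset (Fin lam)) (v : Fin lam → S)
    (hv : ∀ i ∈ R, v i ∈ U i) :
    PP (upd U R v) = PP U * ∏ i ∈ R, (1 - 1 / (#(U i) : ℝ)) := by
  unfold PP
  have h1 : ∀ i : Fin lam, ((#(upd U R v i) : ℝ) / (Fintype.card S : ℝ)) =
      ((#(U i) : ℝ) / (Fintype.card S : ℝ)) * (if i ∈ R then (1 - 1 / (#(U i) : ℝ)) else 1) := by
    intro i
    by_cases hi : i ∈ R
    · rw [if_pos hi]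
      have h2 := card_upd_of_mem U R v i hi (hv i hi)
      have h3 : (0 : ℝ) < (#(U i) : ℝ) := by
        exact_mod_cast Finset.card_pos.2 ⟨v i, hv i hi⟩
      have h4 : (#(upd U R v i) : ℝ) = (#(U i) : ℝ) - 1 := by
        rw [← h2]; push_cast; ring
      rw [h4]
      field_simp
    · rw [if_neg hi, upd_of_not_mem U R v i hi, mul_one]
  rw [Finset.prod_congr rfl (fun i _ => h1 i), Finset.prod_mul_distrib]
  congr 1
  rw [Finset.prod_ite_mem]
  simp

lemma PP_pos (U : Fin lam → Finset S) (hU : ∀ i, 0 < #(U i)) : 0 < PP U := by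
  unfold PP
  apply Finset.prod_pos
  intro i _
  have h1 : 0 < #(U i) := hU i
  have h2 : #(U i) ≤ Fintype.card S := Finset.card_le_univ _
  have h3 : (0 : ℝ) < (#(U i) : ℝ) := by exact_mod_cast h1
  have h4 : (0 : ℝ) < (Fintype.card S : ℝ) := by exact_mod_cast lt_of_lt_of_le h1 h2
  positivity

lemma PP_le_one (U : Fin lam → Finset S) : PP U ≤ 1 := by
  unfold PP
  apply Finset.prod_le_one
  · intro i _; positivity
  · intro i _
    apply div_le_one_of_le₀
    · exact_mod_cast Finset.card_le_univ _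
    · positivity

lemma PP_ge (U : Fin lam → Finset S) (a : ℝ) (ha : 0 ≤ a)
    (hU : ∀ i, a ≤ (#(U i) : ℝ) / (Fintype.card S : ℝ)) : a ^ lam ≤ PP U := by
  unfold PP
  calc a ^ lam = ∏ _i : Fin lam, a := by simp
    _ ≤ _ := Finset.prod_le_prod (fun i _ => ha) (fun i _ => hU i)

/-- Bonferroni: number of deleted classes after removal. -/
lemma NC_upd_le (U : Fin lam → Finset S) (R : Finset (Fin lam)) (v : Fin lam → S) (b : ℝ)
    (hb0 : 0 ≤ b)
    (hb : ∀ i i' : Fin lam, i ≠ i' → ∀ v v' : S,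
      (#{j : Fin r | ∃ c, π j i c = v ∧ π j i' c = v'} : ℝ) ≤ b) :
    (NC π C (upd U R v) : ℝ) ≤ (NC π C U : ℝ) - ∑ i ∈ R, (dd π C U i (v i) : ℝ)
      + (lam : ℝ) ^ 2 * b := by
  classical
  -- indicator sums
  have e1 : (NC π C (upd U R v) : ℝ) = ∑ q ∈ C with Ins π U q,
      (if (∀ i ∈ R, π q.1 i q.2 ≠ v i) then (1 : ℝ) else 0) := by
    unfold NC
    rw [Finset.sum_ite, Finset.sum_const_zero, add_zero, Finset.sum_const, nsmul_eq_mul, mul_one,
      Finset.filter_filter]
    congr 2
    ext q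
    simp only [Finset.mem_filter, ins_upd]
  have e2 : (NC π C U : ℝ) = ∑ q ∈ C with Ins π U q, (1 : ℝ) := by
    unfold NC
    simp
  have e3 : ∀ i, (dd π C U i (v i) : ℝ) = ∑ q ∈ C with Ins π U q,
      (if π q.1 i q.2 = v i then (1 : ℝ) else 0) := by
    intro i
    unfold dd
    rw [Finset.sum_ite, Finset.sum_const_zero, add_zero, Finset.sum_const, nsmul_eq_mul, mul_one,
      Finset.filter_filter]
  have e4 : ∀ i ∈ R, ∀ i' ∈ R, i ≠ i' → ∑ q ∈ C with Ins π U q,
      (if π q.1 i q.2 = v i ∧ π q.1 i' q.2 = v i' then (1 : ℝ) else 0) ≤ b := by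
    intro i _ i' _ hii
    rw [Finset.sum_ite, Finset.sum_const_zero, add_zero, Finset.sum_const, nsmul_eq_mul, mul_one,
      Finset.filter_filter]
    refine le_trans ?_ (hb i i' hii (v i) (v i'))
    have : #{q ∈ C | Ins π U q ∧ π q.1 i q.2 = v i ∧ π q.1 i' q.2 = v i'} ≤
        #{j : Fin r | ∃ c, π j i c = v i ∧ π j i' c = v i'} := by
      apply Finset.card_le_card_of_injOn (fun q => q.1)
      · intro q hq
        simp only [Finset.coe_filter, Set.mem_ofPred_eq] at hq ⊢
        exact ⟨Finset.mem_univ _, q.2, hq.2.2⟩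
      · intro q hq q' hq' h
        simp only [Finset.coe_filter, Set.mem_ofPred_eq] at hq hq' h
        have h1 := hq.2.2.1
        have h2 := hq'.2.2.1
        rw [← h] at h2
        have h3 := (π q.1 i).injective (h1.trans h2.symm)
        exact Prod.ext h h3
    exact_mod_cast this
  -- pointwise inequality
  have key : ∀ q : Fin r × S,
      (if (∀ i ∈ R, π q.1 i q.2 ≠ v i) then (1 : ℝ) else 0) ≤
        1 - ∑ i ∈ R, (if π q.1 i q.2 = v i then (1 : ℝ) else 0) +
        ∑ i ∈ R, ∑ i' ∈ R.erase i,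
          (if π q.1 i q.2 = v i ∧ π q.1 i' q.2 = v i' then (1 : ℝ) else 0) := by
    intro q
    obtain ⟨K, hK⟩ : ∃ K : Finset (Fin lam), K = R.filter (fun i => π q.1 i q.2 = v i) := ⟨_, rfl⟩
    have s1 : ∑ i ∈ R, (if π q.1 i q.2 = v i then (1 : ℝ) else 0) = (#K : ℝ) := by
      rw [hK, Finset.sum_ite, Finset.sum_const_zero, add_zero, Finset.sum_const, nsmul_eq_mul,
        mul_one]
    have s2 : ∑ i ∈ R, ∑ i' ∈ R.erase i,
          (if π q.1 i q.2 = v i ∧ π q.1 i' q.2 = v i' then (1 : ℝ) else 0) =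
          (#K : ℝ) * ((#K : ℝ) - 1) := by
      have : ∀ i ∈ R, ∑ i' ∈ R.erase i,
          (if π q.1 i q.2 = v i ∧ π q.1 i' q.2 = v i' then (1 : ℝ) else 0) =
          if π q.1 i q.2 = v i then ((#K : ℝ) - 1) else 0 := by
        intro i hi
        by_cases h : π q.1 i q.2 = v i
        · simp only [h, true_and, if_true]
          rw [Finset.sum_ite, Finset.sum_const_zero, add_zero, Finset.sum_const, nsmul_eq_mul,
            mul_one]
          have : (R.erase i).filter (fun x => π q.1 x q.2 = v x) = K.erase i := by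
            rw [hK, Finset.filter_erase]
          rw [this]
          have hiK : i ∈ K := by rw [hK]; exact Finset.mem_filter.2 ⟨hi, h⟩
          rw [Finset.card_erase_of_mem hiK]
          have : 1 ≤ #K := Finset.card_pos.2 ⟨i, hiK⟩
          push_cast [Nat.cast_sub this]
          ring
        · simp [h]
      rw [Finset.sum_congr rfl this, Finset.sum_ite, Finset.sum_const_zero, add_zero,
        Finset.sum_const, nsmul_eq_mul, hK]
    rw [s1, s2]
    by_cases h : ∀ i ∈ R, π q.1 i q.2 ≠ v i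
    · rw [if_pos h]
      have : K = ∅ := by
        rw [hK, Finset.filter_eq_empty_iff]
        intro i hi; exact h i hi
      rw [this]; simp
    · rw [if_neg h]
      push Not at h
      obtain ⟨i, hi, hiv⟩ := h
      have hiK : i ∈ K := by rw [hK]; exact Finset.mem_filter.2 ⟨hi, hiv⟩
      have h1 : 1 ≤ #K := Finset.card_pos.2 ⟨i, hiK⟩
      have h2 : (1 : ℝ) ≤ (#K : ℝ) := by exact_mod_cast h1
      nlinarith
  have hsum : (NC π C (upd U R v) : ℝ) ≤ (NC π C U : ℝ) - ∑ i ∈ R, (dd π C U i (v i) : ℝ)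
      + ∑ i ∈ R, ∑ i' ∈ R.erase i, ∑ q ∈ C with Ins π U q,
      (if π q.1 i q.2 = v i ∧ π q.1 i' q.2 = v i' then (1 : ℝ) else 0) := by
    rw [e1, e2]
    calc ∑ q ∈ C with Ins π U q, (if (∀ i ∈ R, π q.1 i q.2 ≠ v i) then (1 : ℝ) else 0)
        ≤ ∑ q ∈ C with Ins π U q, (1 - ∑ i ∈ R, (if π q.1 i q.2 = v i then (1 : ℝ) else 0) +
        ∑ i ∈ R, ∑ i' ∈ R.erase i,
          (if π q.1 i q.2 = v i ∧ π q.1 i' q.2 = v i' then (1 : ℝ) else 0)) :=
          Finset.sum_le_sum (fun q _ => key q)
      _ = _ := by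
        rw [Finset.sum_add_distrib, Finset.sum_sub_distrib]
        congr 1
        · congr 1
          rw [Finset.sum_comm]
          exact Finset.sum_congr rfl (fun i _ => (e3 i).symm)
        · rw [Finset.sum_comm]
          refine Finset.sum_congr rfl (fun i _ => ?_)
          rw [Finset.sum_comm]
  have hbd : ∑ i ∈ R, ∑ i' ∈ R.erase i, ∑ q ∈ C with Ins π U q,
      (if π q.1 i q.2 = v i ∧ π q.1 i' q.2 = v i' then (1 : ℝ) else 0) ≤ (lam : ℝ) ^ 2 * b := by
    have hR : (#R : ℝ) ≤ (lam : ℝ) := by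
      have := Finset.card_le_univ R
      rw [Fintype.card_fin] at this
      exact_mod_cast this
    calc _ ≤ ∑ i ∈ R, ∑ i' ∈ R.erase i, b := by
          refine Finset.sum_le_sum (fun i hi => Finset.sum_le_sum (fun i' hi' => ?_))
          exact e4 i hi i' (Finset.mem_of_mem_erase hi') (Finset.ne_of_mem_erase hi').symm
      _ ≤ ∑ i ∈ R, (lam : ℝ) * b := by
          refine Finset.sum_le_sum (fun i hi => ?_)
          rw [Finset.sum_const, nsmul_eq_mul]
          apply mul_le_mul_of_nonneg_right _ hb0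
          refine le_trans ?_ hR
          exact_mod_cast Finset.card_le_card (Finset.erase_subset _ _)
      _ ≤ (lam : ℝ) ^ 2 * b := by
          rw [Finset.sum_const, nsmul_eq_mul, sq, mul_assoc]
          apply mul_le_mul_of_nonneg_right hR
          positivity
  linarith

end Pool.Agent.R982.TC.Process
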