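import Pool.Agent.R982.TC.B0

/-!
# Piece B: discarding a vertex, and the expansion of the potential when marking
-/

open Finset

set_option linter.unusedSectionVars false

namespace Pool.Agent.R982.TC.Process

variable {r lam : ℕ} {S : Type} [Fintype S] [DecidableEq S]
  (π : Fin r → Fin lam → (S ≃ S)) (C : Finset (Fin r × S))

lemma NC_upd_single (U : Fin lam → Finset S) (i0 : Fin lam) (v : Fin lam → S) :
    NC π C (upd U {i0} v) + dd π C U i0 (v i0) = NC π C U := by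
  unfold NC dd
  have h1 : ({q ∈ C | Ins π (upd U {i0} v) q} : Finset _) =
      {q ∈ ({q ∈ C | Ins π U q} : Finset _) | ¬ (π q.1 i0 q.2 = v i0)} := by
    ext q
    simp only [Finset.mem_filter, ins_upd, Finset.mem_singleton, forall_eq]
    tauto
  have h2 : ({q ∈ C | Ins π U q ∧ π q.1 i0 q.2 = v i0} : Finset _) =
      {q ∈ ({q ∈ C | Ins π U q} : Finset _) | (π q.1 i0 q.2 = v i0)} := by
    ext q
    simp only [Finset.mem_filter]
    tauto
  rw [h1, h2, add_comm]
  exact Finset.card_filter_add_card_filter_not _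

lemma wt_nonneg (s t : ℕ) (U : Fin lam → Finset S) (i : Fin lam) : 0 ≤ wt s t U i := by
  unfold wt
  split_ifs
  · positivity
  · exact le_refl _

lemma wt_succ (s t : ℕ) (U : Fin lam → Finset S) (i : Fin lam) :
    wt s (t + 1) U i = 9 / 8 * wt s t U i := by
  unfold wt
  split_ifs
  · ring
  · ring

lemma wt_upd_of_not_mem (s t : ℕ) (U : Fin lam → Finset S) (R : Finset (Fin lam))
    (v : Fin lam → S) (i : Fin lam) (hi : i ∉ R) : wt s t (upd U R v) i = wt s t U i := by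
  unfold wt
  rw [upd_of_not_mem U R v i hi]

lemma wt_upd_le (s t : ℕ) (U : Fin lam → Finset S) (R : Finset (Fin lam))
    (v : Fin lam → S) (i : Fin lam) (hi : i ∈ R) (hv : v i ∈ U i) :
    wt s t (upd U R v) i ≤ 1 / 2 * wt s t U i := by
  have h1 := card_upd_of_mem U R v i hi hv
  have h2 : #(U i) ≤ Fintype.card S := Finset.card_le_univ _
  by_cases h : s < #(upd U R v i)
  · have h3 : s < #(U i) := by omega
    unfold wt
    rw [if_pos h, if_pos h3]
    have h4 : Fintype.card S - #(upd U R v i) = (Fintype.card S - #(U i)) + 1 := by omega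
    rw [h4, pow_succ]
    apply le_of_eq
    ring
  · have h5 : wt s t (upd U R v) i = 0 := by
      unfold wt
      rw [if_neg h]
    rw [h5]
    have := wt_nonneg s t U i
    positivity

lemma sum_wt_upd_le (s t : ℕ) (U : Fin lam → Finset S) (R : Finset (Fin lam))
    (v : Fin lam → S) (hv : ∀ i ∈ R, v i ∈ U i) :
    ∑ i, wt s t (upd U R v) i ≤ ∑ i, wt s t U i - 1 / 2 * ∑ i ∈ R, wt s t U i := by
  have h1 : ∀ i : Fin lam, wt s t (upd U R v) i ≤
      wt s t U i - 1 / 2 * (if i ∈ R then wt s t U i else 0) := by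
    intro i
    by_cases hi : i ∈ R
    · rw [if_pos hi]
      have := wt_upd_le s t U R v i hi (hv i hi)
      linarith
    · rw [if_neg hi, wt_upd_of_not_mem s t U R v i hi]
      linarith
  calc ∑ i, wt s t (upd U R v) i ≤ ∑ i, (wt s t U i - 1 / 2 * (if i ∈ R then wt s t U i else 0)) :=
        Finset.sum_le_sum (fun i _ => h1 i)
    _ = _ := by
        rw [Finset.sum_sub_distrib, ← Finset.mul_sum, Finset.sum_ite_mem]
        simp

lemma discard (s t : ℕ) (U : Fin lam → Finset S) (i0 : Fin lam) (v : Fin lam → S)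
    (hv : v i0 ∈ U i0) (hs : 1 ≤ s) (hact : s < #(U i0)) (hU : ∀ i, 0 < #(U i)) (hr : 0 < r)
    (hdh : dh π C U ≤ 1 / 8)
    (hdd : (r : ℝ) * (Fintype.card S : ℝ) * PP U / (4 * (#(U i0) : ℝ)) ≤ (dd π C U i0 (v i0) : ℝ)) :
    Phi π C s t (upd U {i0} v) + 1 / (8 * (Fintype.card S : ℝ)) ≤ Phi π C s t U := by
  have hP := PP_pos U hU
  have hcard : #(U i0) ≤ Fintype.card S := Finset.card_le_univ _
  have hn2 : 2 ≤ #(U i0) := by omega
  have hN : (0 : ℝ) < (Fintype.card S : ℝ) := by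
    have : 0 < Fintype.card S := by omega
    exact_mod_cast this
  have hr' : (0 : ℝ) < (r : ℝ) := by exact_mod_cast hr
  obtain ⟨D, hD⟩ : ∃ D : ℝ, D = (r : ℝ) * (Fintype.card S : ℝ) * PP U := ⟨_, rfl⟩
  have hDpos : 0 < D := by rw [hD]; positivity
  obtain ⟨n0, hn0⟩ : ∃ n0 : ℝ, n0 = (#(U i0) : ℝ) := ⟨_, rfl⟩
  have hn0' : 2 ≤ n0 := by rw [hn0]; exact_mod_cast hn2
  have hn0N : n0 ≤ (Fintype.card S : ℝ) := by rw [hn0]; exact_mod_cast hcard
  have hNC := NC_upd_single π C U i0 v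
  have hNC' : (NC π C (upd U {i0} v) : ℝ) = (NC π C U : ℝ) - (dd π C U i0 (v i0) : ℝ) := by
    rw [← hNC]; push_cast; ring
  have hPP : PP (upd U {i0} v) = PP U * (1 - 1 / n0) := by
    rw [PP_upd U {i0} v (by simpa using hv), hn0]
    simp
  have hsum : ∑ i, wt s t (upd U {i0} v) i ≤ ∑ i, wt s t U i := by
    have h1 := sum_wt_upd_le s t U {i0} v (by simpa using hv)
    have h2 : 0 ≤ ∑ i ∈ ({i0} : Finset (Fin lam)), wt s t U i :=
      Finset.sum_nonneg (fun i _ => wt_nonneg s t U i)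
    linarith
  have hdh' : dh π C (upd U {i0} v) + 1 / (8 * (Fintype.card S : ℝ)) ≤ dh π C U := by
    unfold dh at hdh ⊢
    rw [hPP, hNC', ← mul_assoc, ← hD]
    rw [← hD] at hdh
    rw [← hD, ← hn0] at hdd
    obtain ⟨x, hx⟩ : ∃ x : ℝ, x = (NC π C U : ℝ) := ⟨_, rfl⟩
    obtain ⟨y, hy⟩ : ∃ y : ℝ, y = (dd π C U i0 (v i0) : ℝ) := ⟨_, rfl⟩
    obtain ⟨M, hM⟩ : ∃ M : ℝ, M = (Fintype.card S : ℝ) := ⟨_, rfl⟩
    rw [← hx, ← hy, ← hM]
    rw [← hx] at hdh
    rw [← hy] at hdd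
    rw [← hM] at hn0N hN
    have hx1 : x ≤ D / 8 := by
      rw [div_le_iff₀ hDpos] at hdh; linarith
    have e1 : (x - y) / (D * (1 - 1 / n0)) = (x - y) * n0 / (D * (n0 - 1)) := by
      have : n0 - 1 ≠ 0 := by linarith
      have h0 : n0 ≠ 0 := by linarith
      field_simp
    rw [e1]
    have hpos : 0 < D * (n0 - 1) := mul_pos hDpos (by linarith)
    have h2 : y ≥ D / (4 * n0) := hdd
    have h3 : y * n0 ≥ D / 4 := by
      have : D / (4 * n0) * n0 = D / 4 := by
        have h0 : n0 ≠ 0 := by linarith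
        field_simp
      nlinarith
    have h4 : (x - y) * n0 / (D * (n0 - 1)) ≤ (x * n0 - D / 4) / (D * (n0 - 1)) := by
      apply div_le_div_of_nonneg_right _ hpos.le
      nlinarith
    have h5 : (x * n0 - D / 4) / (D * (n0 - 1)) + 1 / (8 * M) ≤ x / D := by
      have h6 : 1 / (8 * M) ≤ 1 / (8 * (n0 - 1)) := by
        apply one_div_le_one_div_of_le
        · linarith
        · linarith
      have h7 : x / D = (x * (n0 - 1)) / (D * (n0 - 1)) := by
        have : n0 - 1 ≠ 0 := by linarith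
        field_simp
      have h8 : 1 / (8 * (n0 - 1)) = (D / 8) / (D * (n0 - 1)) := by
        have : n0 - 1 ≠ 0 := by linarith
        have : D ≠ 0 := hDpos.ne'
        field_simp
      calc (x * n0 - D / 4) / (D * (n0 - 1)) + 1 / (8 * M)
          ≤ (x * n0 - D / 4) / (D * (n0 - 1)) + (D / 8) / (D * (n0 - 1)) := by
            rw [← h8]; linarith
        _ = (x * n0 - D / 8) / (D * (n0 - 1)) := by ring
        _ ≤ (x * (n0 - 1)) / (D * (n0 - 1)) := by
            apply div_le_div_of_nonneg_right _ hpos.le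
            nlinarith
        _ = x / D := h7.symm
    linarith
  unfold Phi
  have hlam : (0 : ℝ) ≤ 1 / (32 * (lam : ℝ)) := by positivity
  have := mul_le_mul_of_nonneg_left hsum hlam
  linarith

lemma prod_one_sub_ge {ι : Type*} (R : Finset ι) (a : ι → ℝ) (ha : ∀ i ∈ R, 0 ≤ a i)
    (ha1 : ∀ i ∈ R, a i ≤ 1) : 1 - ∑ i ∈ R, a i ≤ ∏ i ∈ R, (1 - a i) := by
  classical
  induction R using Finset.induction_on with
  | empty => simp
  | insert i R hi ih =>
    rw [Finset.sum_insert hi, Finset.prod_insert hi]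
    have h1 := ih (fun j hj => ha j (Finset.mem_insert_of_mem hj))
      (fun j hj => ha1 j (Finset.mem_insert_of_mem hj))
    have h2 := ha i (Finset.mem_insert_self _ _)
    have h3 := ha1 i (Finset.mem_insert_self _ _)
    have h4 : 0 ≤ ∑ j ∈ R, a j := Finset.sum_nonneg (fun j hj => ha j (Finset.mem_insert_of_mem hj))
    have h5 : ∏ j ∈ R, (1 - a j) ≤ 1 := by
      apply Finset.prod_le_one
      · intro j hj
        have := ha1 j (Finset.mem_insert_of_mem hj); linarith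
      · intro j hj
        have := ha j (Finset.mem_insert_of_mem hj); linarith
    nlinarith

/-- expansion of the potential when marking `v i`, `i ∈ R`. -/
lemma mark_expand (s t : ℕ) (U : Fin lam → Finset S) (R : Finset (Fin lam)) (v : Fin lam → S)
    (hv : ∀ i ∈ R, v i ∈ U i) (hU : ∀ i, 0 < #(U i)) (hr : 0 < r) (hlam : 0 < lam)
    (b : ℝ) (hb0 : 0 ≤ b)
    (hb : ∀ i i' : Fin lam, i ≠ i' → ∀ v v' : S,
      (#{j : Fin r | ∃ c, π j i c = v ∧ π j i' c = v'} : ℝ) ≤ b)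
    (x : ℝ) (hx : x = ∑ i ∈ R, 1 / (#(U i) : ℝ)) (hx1 : x ≤ 1 / 2)
    (D : ℝ) (hD : D = (r : ℝ) * (Fintype.card S : ℝ) * PP U) :
    Phi π C s (t + 1) (upd U R v) ≤ Phi π C s t U +
      ∑ i ∈ R, (dh π C U / (#(U i) : ℝ) - (dd π C U i (v i) : ℝ) / D
        - 9 / 16 * (1 / (32 * (lam : ℝ))) * wt s t U i)
      + 1 / 8 * (1 / (32 * (lam : ℝ))) * ∑ i, wt s t U i
      + 2 * x ^ 2 * dh π C U + 2 * ((lam : ℝ) ^ 2 * b / D) := by
  have hP := PP_pos U hU
  have hi0 : Nonempty (Fin lam) := ⟨⟨0, hlam⟩⟩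
  obtain ⟨i0⟩ := hi0
  have hN : (0 : ℝ) < (Fintype.card S : ℝ) := by
    have h1 : #(U i0) ≤ Fintype.card S := Finset.card_le_univ _
    have h2 := hU i0
    have : 0 < Fintype.card S := by omega
    exact_mod_cast this
  have hr' : (0 : ℝ) < (r : ℝ) := by exact_mod_cast hr
  have hDpos : 0 < D := by rw [hD]; positivity
  have hx0 : 0 ≤ x := by rw [hx]; positivity
  -- weights
  have hw : ∑ i, wt s (t + 1) (upd U R v) i ≤
      9 / 8 * ∑ i, wt s t U i - 9 / 16 * ∑ i ∈ R, wt s t U i := by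
    have h1 : ∑ i, wt s (t + 1) (upd U R v) i = 9 / 8 * ∑ i, wt s t (upd U R v) i := by
      rw [Finset.mul_sum]
      exact Finset.sum_congr rfl (fun i _ => wt_succ s t _ i)
    have h2 := sum_wt_upd_le s t U R v hv
    rw [h1]
    linarith
  -- density
  have hNC := NC_upd_le π C U R v b hb0 hb
  have hPP := PP_upd U R v hv
  have hprod : 1 - x ≤ ∏ i ∈ R, (1 - 1 / (#(U i) : ℝ)) := by
    rw [hx]
    apply prod_one_sub_ge
    · intro i _; positivity
    · intro i _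
      have h1 : (1 : ℝ) ≤ (#(U i) : ℝ) := by exact_mod_cast hU i
      rw [div_le_one (by linarith)]
      exact h1
  obtain ⟨Q, hQ⟩ : ∃ Q : ℝ, Q = ∏ i ∈ R, (1 - 1 / (#(U i) : ℝ)) := ⟨_, rfl⟩
  rw [← hQ] at hprod hPP
  have hQpos : 0 < Q := by linarith
  obtain ⟨y, hy⟩ : ∃ y : ℝ, y = ∑ i ∈ R, (dd π C U i (v i) : ℝ) / D := ⟨_, rfl⟩
  have hy0 : 0 ≤ y := by
    rw [hy]
    apply Finset.sum_nonneg
    intro i _
    positivity
  have hsumdd : ∑ i ∈ R, (dd π C U i (v i) : ℝ) = y * D := by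
    rw [hy, Finset.sum_mul]
    refine Finset.sum_congr rfl (fun i _ => ?_)
    field_simp
  obtain ⟨h, hh⟩ : ∃ h : ℝ, h = dh π C U := ⟨_, rfl⟩
  have hNCU : (NC π C U : ℝ) = h * D := by
    rw [hh]
    unfold dh
    rw [← hD]
    field_simp
  have hh0 : 0 ≤ h := by
    rw [hh]
    unfold dh
    rw [← hD]
    positivity
  obtain ⟨z, hz⟩ : ∃ z : ℝ, z = (lam : ℝ) ^ 2 * b / D := ⟨_, rfl⟩
  have hz0 : 0 ≤ z := by rw [hz]; positivity
  have hzD : (lam : ℝ) ^ 2 * b = z * D := by rw [hz]; field_simp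
  have hdh : dh π C (upd U R v) ≤ h + h * x - y + 2 * x ^ 2 * h + 2 * z := by
    unfold dh
    rw [hPP, ← mul_assoc, ← hD]
    have h0 : (0 : ℝ) ≤ (NC π C (upd U R v) : ℝ) := by positivity
    rw [hNCU, hsumdd, hzD] at hNC
    have h1 : (NC π C (upd U R v) : ℝ) ≤ (h - y + z) * D := by linarith
    have h2 : 0 ≤ h - y + z := by
      have : 0 ≤ (h - y + z) * D := h0.trans h1
      by_contra hneg
      push Not at hneg
      have := mul_neg_of_neg_of_pos hneg hDpos
      linarith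
    have h3 : (NC π C (upd U R v) : ℝ) / (D * Q) ≤ (h - y + z) / Q := by
      rw [div_le_div_iff₀ (by positivity) hQpos]
      nlinarith [mul_le_mul_of_nonneg_right h1 hQpos.le]
    have h4 : (h - y + z) / Q ≤ (h - y + z) * (1 + x + 2 * x ^ 2) := by
      rw [div_le_iff₀ hQpos, mul_assoc]
      have h5 : 1 ≤ (1 + x + 2 * x ^ 2) * Q := by
        have h6 : (1 + x + 2 * x ^ 2) * (1 - x) ≤ (1 + x + 2 * x ^ 2) * Q :=
          mul_le_mul_of_nonneg_left hprod (by positivity)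
        nlinarith [mul_nonneg (mul_nonneg hx0 hx0) (by linarith : (0:ℝ) ≤ 1 - 2 * x)]
      nlinarith [mul_le_mul_of_nonneg_left h5 h2]
    have h7 : (h - y + z) * (1 + x + 2 * x ^ 2) ≤ h + h * x - y + 2 * x ^ 2 * h + 2 * z := by
      have h8 : x + 2 * x ^ 2 ≤ 1 := by nlinarith
      nlinarith [mul_nonneg hy0 hx0, mul_nonneg hy0 (mul_nonneg hx0 hx0),
        mul_nonneg hz0 (by linarith : (0:ℝ) ≤ 1 - (x + 2 * x ^ 2))]
    linarith
  -- sum
  have hsplit : ∑ i ∈ R, (dh π C U / (#(U i) : ℝ) - (dd π C U i (v i) : ℝ) / D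
        - 9 / 16 * (1 / (32 * (lam : ℝ))) * wt s t U i) =
      h * x - y - 9 / 16 * (1 / (32 * (lam : ℝ))) * ∑ i ∈ R, wt s t U i := by
    have e1 : ∑ i ∈ R, dh π C U / (#(U i) : ℝ) = h * x := by
      rw [hx, Finset.mul_sum, ← hh]
      exact Finset.sum_congr rfl (fun i _ => by ring)
    have e2 : ∑ i ∈ R, 9 / 16 * (1 / (32 * (lam : ℝ))) * wt s t U i =
        9 / 16 * (1 / (32 * (lam : ℝ))) * ∑ i ∈ R, wt s t U i := by
      rw [Finset.mul_sum]
    rw [Finset.sum_sub_distrib, Finset.sum_sub_distrib, ← hy, e1, e2]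
  rw [hsplit]
  unfold Phi
  rw [← hh, ← hz]
  have hl : (0 : ℝ) ≤ 1 / (32 * (lam : ℝ)) := by positivity
  have h9 := mul_le_mul_of_nonneg_left hw hl
  nlinarith [h9, hdh]

end Pool.Agent.R982.TC.Process
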