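import Pool.Agent.R982.TC.B1

/-!
# Piece B: counting estimates from quasi-randomness, the averaging argument, the marking step
-/

open Finset

set_option linter.unusedSectionVars false

namespace Pool.Agent.R982.TC.Process

variable {r lam : ℕ} {S : Type} [Fintype S] [DecidableEq S]
  (π : Fin r → Fin lam → (S ≃ S)) (C : Finset (Fin r × S))

/-- number of classes of colours outside `J` inside `W` -/
def cnt (J : Finset (Fin r)) (W : Fin lam → Finset S) : ℕ :=
  #{q : Fin r × S | q.1 ∉ J ∧ Ins π W q}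

lemma cnt_eq (J : Finset (Fin r)) (W : Fin lam → Finset S) :
    cnt π J W = ∑ j ∈ univ \ J, X π j W := by
  unfold cnt
  rw [Finset.card_eq_sum_card_fiberwise (f := Prod.fst) (t := univ \ J)]
  · refine Finset.sum_congr rfl (fun j hj => ?_)
    unfold X
    symm
    apply Finset.card_bij (fun c _ => (j, c))
    · intro c hc
      simp only [Finset.mem_filter, Finset.mem_univ, true_and] at hc ⊢
      exact ⟨⟨(Finset.mem_sdiff.1 hj).2, hc⟩, trivial⟩
    · intro c _ c' _ h
      exact (Prod.mk.inj h).2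
    · intro q hq
      simp only [Finset.mem_filter, Finset.mem_univ, true_and] at hq
      refine ⟨q.2, ?_, ?_⟩
      · simp only [Finset.mem_filter, Finset.mem_univ, true_and]
        have := hq.1.2
        unfold Ins at this
        rw [hq.2] at this
        exact this
      · rw [← hq.2]
  · intro q hq
    simp only [Finset.coe_filter, Finset.mem_univ, true_and, Set.mem_ofPred_eq] at hq
    simp only [Finset.coe_sdiff, Finset.coe_univ, Set.mem_sdiff, Set.mem_univ, true_and,
      Finset.mem_coe]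
    exact hq.1

lemma X_le (j : Fin r) (W : Fin lam → Finset S) : X π j W ≤ Fintype.card S := by
  unfold X
  exact Finset.card_le_univ _

lemma cnt_upper (ε : ℝ) (hQ : QR π ε) (W : Fin lam → Finset S) :
    (cnt π ∅ W : ℝ) ≤ (r : ℝ) * (Fintype.card S : ℝ) * (PP W + 2 * ε) := by
  obtain ⟨B, hB, hX⟩ := hQ.1 W
  rw [cnt_eq, Finset.sdiff_empty]
  push_cast
  have h1 : ∀ j : Fin r, (X π j W : ℝ) ≤
      ((Fintype.card S : ℝ) * PP W + ε * (Fintype.card S : ℝ)) +
        (if j ∈ B then (Fintype.card S : ℝ) else 0) := by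
    intro j
    by_cases hj : j ∈ B
    · rw [if_pos hj]
      have h2 : (X π j W : ℝ) ≤ (Fintype.card S : ℝ) := by exact_mod_cast X_le π j W
      have h3 : 0 ≤ PP W := by unfold PP; positivity
      have h4 : 0 ≤ ε * (Fintype.card S : ℝ) := by
        by_cases hr : r = 0
        · subst hr; exact j.elim0
        · have hr' : (0 : ℝ) < (r : ℝ) := by exact_mod_cast Nat.pos_of_ne_zero hr
          have : 0 ≤ ε * r := le_trans (by positivity) hB
          have hε : 0 ≤ ε := by
            by_contra hneg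
            push Not at hneg
            have := mul_neg_of_neg_of_pos hneg hr'
            linarith
          positivity
      have h5 : 0 ≤ (Fintype.card S : ℝ) * PP W := by positivity
      linarith
    · rw [if_neg hj]
      have := (abs_le.1 (hX j hj)).2
      unfold PP
      linarith
  calc ∑ j : Fin r, (X π j W : ℝ) ≤ ∑ j : Fin r,
        (((Fintype.card S : ℝ) * PP W + ε * (Fintype.card S : ℝ)) +
        (if j ∈ B then (Fintype.card S : ℝ) else 0)) := Finset.sum_le_sum (fun j _ => h1 j)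
    _ = (r : ℝ) * ((Fintype.card S : ℝ) * PP W + ε * (Fintype.card S : ℝ)) +
        (#B : ℝ) * (Fintype.card S : ℝ) := by
        rw [Finset.sum_add_distrib, Finset.sum_const, Finset.card_univ, Fintype.card_fin,
          nsmul_eq_mul, Finset.sum_ite_mem]
        simp
    _ ≤ _ := by
        have : (#B : ℝ) * (Fintype.card S : ℝ) ≤ ε * r * (Fintype.card S : ℝ) :=
          mul_le_mul_of_nonneg_right hB (by positivity)
        nlinarith

lemma cnt_lower (ε : ℝ) (hQ : QR π ε) (J : Finset (Fin r)) (W : Fin lam → Finset S)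
    (hpos : ε ≤ PP W) :
    ((r : ℝ) - (#J : ℝ) - ε * r) * ((Fintype.card S : ℝ) * (PP W - ε)) ≤ (cnt π J W : ℝ) := by
  obtain ⟨B, hB, hX⟩ := hQ.1 W
  rw [cnt_eq]
  push_cast
  have hsub : (univ \ J) \ B ⊆ univ \ J := Finset.sdiff_subset
  have h0 : 0 ≤ (Fintype.card S : ℝ) * (PP W - ε) := by
    have : 0 ≤ PP W - ε := by linarith
    positivity
  have hc : (r : ℝ) - (#J : ℝ) - (#B : ℝ) ≤ (#((univ \ J) \ B) : ℝ) := by
    have h1 : r ≤ #((univ \ J) \ B) + #B + #J := by
      have h2 : #(univ : Finset (Fin r)) ≤ #((univ \ J) \ B) + #B + #J := by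
        have h3 : #(univ \ J : Finset (Fin r)) ≤ #((univ \ J) \ B) + #B := by
          have := Finset.le_card_sdiff B (univ \ J : Finset (Fin r))
          omega
        have h4 := Finset.le_card_sdiff J (univ : Finset (Fin r))
        omega
      simpa using h2
    have : (r : ℝ) ≤ (#((univ \ J) \ B) : ℝ) + (#B : ℝ) + (#J : ℝ) := by exact_mod_cast h1
    linarith
  calc ((r : ℝ) - (#J : ℝ) - ε * r) * ((Fintype.card S : ℝ) * (PP W - ε))
      ≤ (#((univ \ J) \ B) : ℝ) * ((Fintype.card S : ℝ) * (PP W - ε)) := by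
        apply mul_le_mul_of_nonneg_right _ h0
        linarith
    _ = ∑ j ∈ (univ \ J) \ B, ((Fintype.card S : ℝ) * (PP W - ε)) := by
        rw [Finset.sum_const, nsmul_eq_mul]
    _ ≤ ∑ j ∈ (univ \ J) \ B, (X π j W : ℝ) := by
        refine Finset.sum_le_sum (fun j hj => ?_)
        have := (abs_le.1 (hX j (Finset.mem_sdiff.1 hj).2)).1
        unfold PP
        linarith
    _ ≤ ∑ j ∈ univ \ J, (X π j W : ℝ) :=
        Finset.sum_le_sum_of_subset_of_nonneg hsub (fun j _ _ => by positivity)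

/-- available classes -/
def Al (J : Finset (Fin r)) (U : Fin lam → Finset S) : Finset (Fin r × S) :=
  {q : Fin r × S | q.1 ∉ J ∧ q ∉ C ∧ Ins π U q}

/-- available classes through `(i,v)` -/
def al (J : Finset (Fin r)) (U : Fin lam → Finset S) (i : Fin lam) (v : S) : ℕ :=
  #{q ∈ Al π C J U | π q.1 i q.2 = v}

lemma Al_upper (ε : ℝ) (hQ : QR π ε) (J : Finset (Fin r)) (U : Fin lam → Finset S) :
    (#(Al π C J U) : ℝ) ≤ (r : ℝ) * (Fintype.card S : ℝ) * (PP U + 2 * ε) := by
  refine le_trans ?_ (cnt_upper π ε hQ U)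
  have : #(Al π C J U) ≤ cnt π ∅ U := by
    unfold Al cnt
    apply Finset.card_le_card
    intro q hq
    simp only [Finset.mem_filter, Finset.mem_univ, true_and, Finset.notMem_empty,
      not_false_eq_true] at hq ⊢
    exact hq.2.2
  exact_mod_cast this

lemma cnt_le_Al (J : Finset (Fin r)) (U : Fin lam → Finset S) :
    cnt π J U ≤ #(Al π C J U) + NC π C U := by
  unfold cnt Al NC
  refine le_trans (Finset.card_le_card ?_) (Finset.card_union_le _ _)
  intro q hq
  simp only [Finset.mem_filter, Finset.mem_univ, true_and, Finset.mem_union] at hq ⊢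
  by_cases h : q ∈ C
  · exact Or.inr ⟨h, hq.2⟩
  · exact Or.inl ⟨hq.1, h, hq.2⟩

/-- replace the pool `i` by `F` -/
def rep (U : Fin lam → Finset S) (i : Fin lam) (F : Finset S) : Fin lam → Finset S :=
  fun i' => if i' = i then F else U i'

lemma PP_rep (U : Fin lam → Finset S) (i : Fin lam) (F : Finset S) (hU : 0 < #(U i)) :
    PP (rep U i F) = PP U * ((#F : ℝ) / (#(U i) : ℝ)) := by
  unfold PP
  have h3 : (0 : ℝ) < (#(U i) : ℝ) := by exact_mod_cast hU
  have h1 : ∀ i' : Fin lam, ((#(rep U i F i') : ℝ) / (Fintype.card S : ℝ)) =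
      ((#(U i') : ℝ) / (Fintype.card S : ℝ)) *
        (if i' = i then ((#F : ℝ) / (#(U i) : ℝ)) else 1) := by
    intro i'
    unfold rep
    by_cases hi : i' = i
    · rw [if_pos hi, if_pos hi, hi]
      field_simp
    · rw [if_neg hi, if_neg hi, mul_one]
  rw [Finset.prod_congr rfl (fun i' _ => h1 i'), Finset.prod_mul_distrib,
    Finset.prod_ite_eq' univ i]
  simp

lemma cnt_rep_le (J : Finset (Fin r)) (U : Fin lam → Finset S) (i : Fin lam) (F : Finset S)
    (hF : F ⊆ U i) :
    cnt π J (rep U i F) ≤ ∑ v ∈ F, (al π C J U i v + dd π C U i v) := by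
  unfold cnt
  rw [Finset.card_eq_sum_card_fiberwise (f := fun q => π q.1 i q.2) (t := F)]
  · refine Finset.sum_le_sum (fun v hv => ?_)
    unfold al dd Al
    refine le_trans (Finset.card_le_card ?_) (Finset.card_union_le _ _)
    intro q hq
    simp only [Finset.mem_filter, Finset.mem_univ, true_and, Finset.mem_union] at hq ⊢
    have hins : Ins π U q := by
      intro i'
      have := hq.1.2 i'
      unfold rep at this
      split_ifs at this with h
      · rw [h]; rw [h] at this; exact hF this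
      · exact this
    by_cases h : q ∈ C
    · exact Or.inr ⟨h, hins, hq.2⟩
    · exact Or.inl ⟨⟨hq.1.1, h, hins⟩, hq.2⟩
  · intro q hq
    simp only [Finset.coe_filter, Finset.mem_univ, true_and, Set.mem_ofPred_eq] at hq
    have := hq.2 i
    unfold rep at this
    rw [if_pos rfl] at this
    exact this

/-- averaging -/
lemma exists_mark (A : Finset (Fin r × S)) (hA : A.Nonempty) (U : Fin lam → Finset S)
    (hAU : ∀ q ∈ A, ∀ i, π q.1 i q.2 ∈ U i) (Act : Finset (Fin lam)) (g : Fin lam → S → ℝ)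
    (F : Fin lam → Finset S) (e : Fin lam → ℝ) (he : ∀ i ∈ Act, 0 < e i)
    (hF : ∀ i ∈ Act, ∀ v ∈ U i, v ∉ F i → e i ≤ (#{q ∈ A | π q.1 i q.2 = v} : ℝ)) :
    ∃ q ∈ A, ∃ R ⊆ Act, ∑ i ∈ R, g i (π q.1 i q.2) ≤
      (1 / (#A : ℝ)) * ∑ i ∈ Act, e i * ∑ v ∈ U i \ F i, g i v := by
  classical
  have hApos : (0 : ℝ) < (#A : ℝ) := by exact_mod_cast hA.card_pos
  -- weights
  obtain ⟨a, ha⟩ : ∃ a : Fin lam → S → ℝ, a = fun i v =>
      if v ∈ F i then 0 else e i / (#{q ∈ A | π q.1 i q.2 = v} : ℝ) := ⟨_, rfl⟩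
  have ha0 : ∀ i ∈ Act, ∀ v ∈ U i, 0 ≤ a i v ∧ a i v ≤ 1 := by
    intro i hi v hv
    rw [ha]
    dsimp only
    split_ifs with h
    · exact ⟨le_refl _, zero_le_one⟩
    · have h1 := hF i hi v hv h
      have h2 := he i hi
      have h3 : (0 : ℝ) < (#{q ∈ A | π q.1 i q.2 = v} : ℝ) := lt_of_lt_of_le h2 h1
      exact ⟨by positivity, (div_le_one h3).2 h1⟩
  have hmin : ∀ q ∈ A, ∑ i ∈ Act with g i (π q.1 i q.2) < 0, g i (π q.1 i q.2) ≤
      ∑ i ∈ Act, a i (π q.1 i q.2) * g i (π q.1 i q.2) := by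
    intro q hq
    rw [Finset.sum_filter]
    refine Finset.sum_le_sum (fun i hi => ?_)
    have h1 := ha0 i hi _ (hAU q hq i)
    split_ifs with h
    · nlinarith [h1.1, h1.2]
    · push Not at h
      exact mul_nonneg h1.1 h
  have htot : ∑ q ∈ A, ∑ i ∈ Act, a i (π q.1 i q.2) * g i (π q.1 i q.2) =
      ∑ i ∈ Act, e i * ∑ v ∈ U i \ F i, g i v := by
    rw [Finset.sum_comm]
    refine Finset.sum_congr rfl (fun i hi => ?_)
    rw [← Finset.sum_fiberwise_of_maps_to (s := A) (t := U i) (g := fun q => π q.1 i q.2)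
      (fun q hq => hAU q hq i)]
    have h1 : ∀ v ∈ U i, ∑ q ∈ A with π q.1 i q.2 = v,
        a i (π q.1 i q.2) * g i (π q.1 i q.2) =
        (if v ∈ F i then 0 else e i * g i v) := by
      intro v hv
      have h2 : ∑ q ∈ A with π q.1 i q.2 = v,
        a i (π q.1 i q.2) * g i (π q.1 i q.2) = ∑ q ∈ A with π q.1 i q.2 = v, a i v * g i v := by
        refine Finset.sum_congr rfl (fun q hq => ?_)
        rw [(Finset.mem_filter.1 hq).2]
      rw [h2, Finset.sum_const, nsmul_eq_mul, ha]
      dsimp only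
      split_ifs with h
      · simp
      · have h3 := hF i hi v hv h
        have h4 := he i hi
        have h5 : (0 : ℝ) < (#{q ∈ A | π q.1 i q.2 = v} : ℝ) := lt_of_lt_of_le h4 h3
        field_simp
    rw [Finset.sum_congr rfl h1, Finset.mul_sum, Finset.sdiff_eq_filter, Finset.sum_filter]
    refine Finset.sum_congr rfl (fun v _ => ?_)
    by_cases h : v ∈ F i
    · simp [h]
    · simp [h]
  have hsum : ∑ q ∈ A, (∑ i ∈ Act with g i (π q.1 i q.2) < 0, g i (π q.1 i q.2)) ≤
      ∑ q ∈ A, ((1 / (#A : ℝ)) * ∑ i ∈ Act, e i * ∑ v ∈ U i \ F i, g i v) := by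
    rw [Finset.sum_const, nsmul_eq_mul, ← htot]
    calc _ ≤ ∑ q ∈ A, ∑ i ∈ Act, a i (π q.1 i q.2) * g i (π q.1 i q.2) :=
          Finset.sum_le_sum (fun q hq => hmin q hq)
      _ = _ := by field_simp
  obtain ⟨q, hq, hqle⟩ := Finset.exists_le_of_sum_le hA hsum
  exact ⟨q, hq, _, Finset.filter_subset _ _, hqle⟩

lemma sum_dd (U : Fin lam → Finset S) (i : Fin lam) :
    ∑ v ∈ U i, (dd π C U i v : ℝ) = (NC π C U : ℝ) := by
  unfold dd NC
  rw [Finset.card_eq_sum_card_fiberwise (f := fun q => π q.1 i q.2) (t := U i)]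
  · push_cast
    refine Finset.sum_congr rfl (fun v _ => ?_)
    rw [Finset.filter_filter]
  · intro q hq
    simp only [Finset.coe_filter, Set.mem_ofPred_eq] at hq
    exact hq.2 i

end Pool.Agent.R982.TC.Process
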