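import Pool.Agent.R982.TC.B2

/-!
# Piece B: the marking step
-/

open Finset

set_option linter.unusedSectionVars false

namespace Pool.Agent.R982.TC.Process

/-- the parameter `κ` -/
noncomputable def kap (lam : ℕ) : ℝ := 1 / (2048 * (lam : ℝ) ^ 2)

/-- lower bound for the product of densities -/
noncomputable def omg (lam : ℕ) : ℝ := (1 / (2 * (lam : ℝ))) ^ lam

/-- the quasi-randomness parameter -/
noncomputable def eps (lam : ℕ) : ℝ := kap lam * omg lam

lemma kap_pos (lam : ℕ) (h : 1 ≤ lam) : 0 < kap lam := by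
  unfold kap
  have : (0 : ℝ) < (lam : ℝ) := by exact_mod_cast h
  positivity

lemma kap_le (lam : ℕ) (h : 1 ≤ lam) : kap lam ≤ 1 / 2048 := by
  unfold kap
  have h1 : (1 : ℝ) ≤ (lam : ℝ) := by exact_mod_cast h
  apply one_div_le_one_div_of_le
  · norm_num
  · nlinarith

lemma omg_pos (lam : ℕ) (h : 1 ≤ lam) : 0 < omg lam := by
  unfold omg
  have : (0 : ℝ) < (lam : ℝ) := by exact_mod_cast h
  positivity

lemma omg_le_one (lam : ℕ) (h : 1 ≤ lam) : omg lam ≤ 1 := by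
  unfold omg
  have h1 : (1 : ℝ) ≤ (lam : ℝ) := by exact_mod_cast h
  apply pow_le_one₀
  · positivity
  · rw [div_le_one (by positivity)]
    linarith

lemma eps_pos (lam : ℕ) (h : 1 ≤ lam) : 0 < eps lam := mul_pos (kap_pos lam h) (omg_pos lam h)

lemma eps_le (lam : ℕ) (h : 1 ≤ lam) : eps lam ≤ 1 / 2048 := by
  unfold eps
  have h1 := kap_le lam h
  have h2 := omg_le_one lam h
  have h3 := kap_pos lam h
  have h4 := omg_pos lam h
  nlinarith

/-- pure inequality for the contribution of one part -/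
lemma term_bound (a D n f w kk lamR N Ssum : ℝ) (ha : 0 < a) (hD : 0 < D) (hn : 0 < n)
    (hw : 0 ≤ w) (hf0 : 0 ≤ f) (hf4 : f ≤ 4 * kk) (hk : 0 < kk) (hk1 : kk ≤ 1 / 2048)
    (ha1 : a ≤ D * (1 + 2 * kk)) (ha2 : D / 2 ≤ a)
    (hS : Ssum ≤ f / 4 - 9 / 16 * w * (1 - f) * n) (hnl : N / (2 * lamR) ≤ n) (hN : 0 < N)
    (hl : 0 < lamR) :
    (1 / a) * (D / (4 * n) * Ssum) ≤ kk * lamR / N - 1 / 8 * w := by
  obtain ⟨ρ, hρ⟩ : ∃ ρ : ℝ, ρ = D / (4 * a) := ⟨_, rfl⟩
  have hρ0 : 0 ≤ ρ := by rw [hρ]; exact div_nonneg hD.le (by linarith)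
  have hρ1 : ρ ≤ 1 / 2 := by
    rw [hρ, div_le_iff₀ (by linarith)]; linarith
  have hρ2 : 1 / 4 ≤ ρ * (1 + 2 * kk) := by
    rw [hρ, div_mul_eq_mul_div, le_div_iff₀ (by linarith)]; linarith
  have h1 : (1 / a) * (D / (4 * n) * Ssum) = ρ / n * Ssum := by
    rw [hρ]; field_simp
  have hcoef : 0 ≤ ρ / n := div_nonneg hρ0 hn.le
  have h2 : ρ / n * Ssum ≤ ρ / n * (f / 4 - 9 / 16 * w * (1 - f) * n) :=
    mul_le_mul_of_nonneg_left hS hcoef
  have h3 : ρ / n * (f / 4 - 9 / 16 * w * (1 - f) * n) =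
      ρ * f / (4 * n) - 9 / 16 * ρ * (1 - f) * w := by
    field_simp
  have h4 : ρ * f / (4 * n) ≤ kk * lamR / N := by
    have h5 : ρ * f ≤ 2 * kk := by
      calc ρ * f ≤ 1 / 2 * f := mul_le_mul_of_nonneg_right hρ1 hf0
        _ ≤ 1 / 2 * (4 * kk) := by linarith
        _ = 2 * kk := by ring
    have h6 : ρ * f / (4 * n) ≤ 2 * kk / (4 * n) :=
      div_le_div_of_nonneg_right h5 (by linarith)
    refine h6.trans ?_
    rw [div_le_div_iff₀ (by linarith) hN]
    rw [div_le_iff₀ (by linarith)] at hnl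
    calc 2 * kk * N ≤ 2 * kk * (n * (2 * lamR)) :=
          mul_le_mul_of_nonneg_left hnl (by linarith)
      _ = kk * lamR * (4 * n) := by ring
  have h7 : 1 / 8 * w ≤ 9 / 16 * ρ * (1 - f) * w := by
    apply mul_le_mul_of_nonneg_right _ hw
    have h8 : ρ * (1 + 2 * kk) ≤ ρ * (1 + 2 * (1 / 2048)) :=
      mul_le_mul_of_nonneg_left (by linarith) hρ0
    have h9 : 1 - 4 * (1 / 2048) ≤ 1 - f := by linarith
    have h10 : ρ * (1 - 4 * (1 / 2048)) ≤ ρ * (1 - f) := mul_le_mul_of_nonneg_left h9 hρ0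
    linarith
  rw [h1]
  linarith

variable {r lam : ℕ} {S : Type} [Fintype S] [DecidableEq S]
  (π : Fin r → Fin lam → (S ≃ S)) (C : Finset (Fin r × S))

lemma term_i (hlam : 1 ≤ lam) (hNpos : (0 : ℝ) < (Fintype.card S : ℝ)) (s t : ℕ)
    (U : Fin lam → Finset S) (i : Fin lam) (hnp : (0 : ℝ) < (#(U i) : ℝ))
    (hnl : (Fintype.card S : ℝ) / (2 * (lam : ℝ)) ≤ (#(U i) : ℝ))
    (D : ℝ) (hD : D = (r : ℝ) * (Fintype.card S : ℝ) * PP U) (hDpos : 0 < D)
    (a : ℝ) (hapos : 0 < a) (ha1 : a ≤ D * (1 + 2 * kap lam)) (ha2 : D / 2 ≤ a)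
    (hgi : ∀ v ∈ U i, (dd π C U i v : ℝ) ≤ D / (4 * (#(U i) : ℝ)))
    (F : Finset S) (hFU : F ⊆ U i) (hFb : (#F : ℝ) ≤ 4 * kap lam * (#(U i) : ℝ)) :
    (1 / a) * (D / (4 * (#(U i) : ℝ)) * ∑ v ∈ U i \ F,
        (dh π C U / (#(U i) : ℝ) - (dd π C U i v : ℝ) / D
          - 9 / 16 * (1 / (32 * (lam : ℝ))) * wt s t U i)) ≤
      kap lam * (lam : ℝ) / (Fintype.card S : ℝ) -
        1 / 8 * (1 / (32 * (lam : ℝ))) * wt s t U i := by
  have hk := kap_pos lam hlam
  have hk1 := kap_le lam hlam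
  have hl : (0 : ℝ) < (lam : ℝ) := by exact_mod_cast hlam
  obtain ⟨n, hn'⟩ : ∃ n : ℝ, n = (#(U i) : ℝ) := ⟨_, rfl⟩
  rw [← hn'] at hnp hnl hFb hgi ⊢
  obtain ⟨w, hw⟩ : ∃ w : ℝ, w = (1 / (32 * (lam : ℝ))) * wt s t U i := ⟨_, rfl⟩
  have hw0 : 0 ≤ w := by
    rw [hw]
    exact mul_nonneg (by positivity) (wt_nonneg s t U i)
  have hsumU : ∑ v ∈ U i, (dh π C U / n - (dd π C U i v : ℝ) / D) = 0 := by
    rw [Finset.sum_sub_distrib, Finset.sum_const, nsmul_eq_mul, ← Finset.sum_div,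
      sum_dd π C U i, ← hn']
    unfold dh
    rw [← hD]
    field_simp
    ring
  have hsplit : ∑ v ∈ U i \ F, (dh π C U / n - (dd π C U i v : ℝ) / D) =
      - ∑ v ∈ F, (dh π C U / n - (dd π C U i v : ℝ) / D) := by
    have := Finset.sum_sdiff hFU (f := fun v => (dh π C U / n - (dd π C U i v : ℝ) / D))
    rw [hsumU] at this
    linarith
  have hFsum : - ∑ v ∈ F, (dh π C U / n - (dd π C U i v : ℝ) / D) ≤
      (#F : ℝ) * (1 / (4 * n)) := by
    rw [← Finset.sum_neg_distrib, ← nsmul_eq_mul]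
    apply Finset.sum_le_card_nsmul
    intro v hv
    have h1 := hgi v (hFU hv)
    have h2 : 0 ≤ dh π C U / n := by
      unfold dh
      rw [← hD]
      exact div_nonneg (div_nonneg (Nat.cast_nonneg _) hDpos.le) hnp.le
    have h3 : (dd π C U i v : ℝ) / D ≤ 1 / (4 * n) := by
      rw [div_le_iff₀ hDpos]
      calc (dd π C U i v : ℝ) ≤ D / (4 * n) := h1
        _ = 1 / (4 * n) * D := by ring
    linarith
  have hcardd : (#(U i \ F) : ℝ) = n - (#F : ℝ) := by
    rw [Finset.card_sdiff_of_subset hFU, Nat.cast_sub (Finset.card_le_card hFU), hn']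
  have hsumg : ∑ v ∈ U i \ F, (dh π C U / n - (dd π C U i v : ℝ) / D
          - 9 / 16 * (1 / (32 * (lam : ℝ))) * wt s t U i) ≤
      (#F : ℝ) * (1 / (4 * n)) - 9 / 16 * w * (n - (#F : ℝ)) := by
    have h1 : ∑ v ∈ U i \ F, (dh π C U / n - (dd π C U i v : ℝ) / D
          - 9 / 16 * (1 / (32 * (lam : ℝ))) * wt s t U i) =
        ∑ v ∈ U i \ F, (dh π C U / n - (dd π C U i v : ℝ) / D) -
          (#(U i \ F) : ℝ) * (9 / 16 * w) := by
      rw [← nsmul_eq_mul, ← Finset.sum_const, ← Finset.sum_sub_distrib]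
      refine Finset.sum_congr rfl (fun v _ => ?_)
      rw [hw]
      ring
    rw [h1, hsplit, hcardd]
    linarith
  obtain ⟨f, hf⟩ : ∃ f : ℝ, f = (#F : ℝ) / n := ⟨_, rfl⟩
  have hFf : (#F : ℝ) = f * n := by rw [hf]; field_simp
  have hf0 : 0 ≤ f := by rw [hf]; exact div_nonneg (Nat.cast_nonneg _) hnp.le
  rw [hFf] at hsumg hFb
  have hf4 : f ≤ 4 * kap lam := le_of_mul_le_mul_right hFb hnp
  have hS2 : f * n * (1 / (4 * n)) - 9 / 16 * w * (n - f * n) =
      f / 4 - 9 / 16 * w * (1 - f) * n := by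
    field_simp
  rw [hS2] at hsumg
  have h5 : 1 / 8 * (1 / (32 * (lam : ℝ))) * wt s t U i = 1 / 8 * w := by rw [hw]; ring
  rw [h5]
  exact term_bound a D n f w (kap lam) (lam : ℝ) (Fintype.card S : ℝ) _ hapos hDpos hnp hw0 hf0
    hf4 hk hk1 ha1 ha2 hsumg hnl hNpos hl

lemma F_bound (hlam : 1 ≤ lam) (hr : 0 < r) (hQ : QR π (eps lam)) (J : Finset (Fin r))
    (hJ : (#J : ℝ) ≤ (r : ℝ) / 8) (U : Fin lam → Finset S) (hP : omg lam ≤ PP U)
    (i : Fin lam) (hU : 0 < #(U i)) (D : ℝ)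
    (hD : D = (r : ℝ) * (Fintype.card S : ℝ) * PP U)
    (hdd : ∀ v ∈ U i, (dd π C U i v : ℝ) ≤ D / (4 * (#(U i) : ℝ))) :
    (#{v ∈ U i | (al π C J U i v : ℝ) < D / (4 * (#(U i) : ℝ))} : ℝ) ≤
      4 * kap lam * (#(U i) : ℝ) := by
  obtain ⟨F, hF⟩ : ∃ F : Finset S, F = {v ∈ U i | (al π C J U i v : ℝ) < D / (4 * (#(U i) : ℝ))} :=
    ⟨_, rfl⟩
  rw [← hF]
  have hFU : F ⊆ U i := by rw [hF]; exact Finset.filter_subset _ _
  have hn : (0 : ℝ) < (#(U i) : ℝ) := by exact_mod_cast hU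
  obtain ⟨n, hn'⟩ : ∃ n : ℝ, n = (#(U i) : ℝ) := ⟨_, rfl⟩
  rw [← hn'] at hn hdd ⊢
  obtain ⟨f, hf⟩ : ∃ f : ℝ, f = (#F : ℝ) / n := ⟨_, rfl⟩
  have hFf : (#F : ℝ) = f * n := by rw [hf]; field_simp
  rw [hFf]
  apply mul_le_mul_of_nonneg_right _ hn.le
  by_contra hcon
  push Not at hcon
  have hk := kap_pos lam hlam
  have hom := omg_pos lam hlam
  have he := eps_le lam hlam
  have he0 := eps_pos lam hlam
  have heP : eps lam ≤ kap lam * PP U := by
    unfold eps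
    exact mul_le_mul_of_nonneg_left hP hk.le
  have hPpos : 0 < PP U := lt_of_lt_of_le hom hP
  have hrep := PP_rep U i F hU
  rw [← hn', ← hf] at hrep
  have hpos : eps lam ≤ PP (rep U i F) := by
    rw [hrep]
    nlinarith
  have h1 := cnt_lower π (eps lam) hQ J (rep U i F) hpos
  have h2 : (cnt π J (rep U i F) : ℝ) ≤ ∑ v ∈ F, ((al π C J U i v : ℝ) + (dd π C U i v : ℝ)) := by
    have := cnt_rep_le π C J U i F hFU
    exact_mod_cast this
  have h3 : ∑ v ∈ F, ((al π C J U i v : ℝ) + (dd π C U i v : ℝ)) ≤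
      ∑ v ∈ F, (D / (4 * n) + D / (4 * n)) := by
    refine Finset.sum_le_sum (fun v hv => ?_)
    have h4 : (al π C J U i v : ℝ) < D / (4 * n) := by
      rw [hF] at hv
      rw [hn']
      exact (Finset.mem_filter.1 hv).2
    have h5 := hdd v (hFU hv)
    linarith
  rw [Finset.sum_const, nsmul_eq_mul, hFf] at h3
  rw [hrep] at h1
  have hr' : (0 : ℝ) < (r : ℝ) := by exact_mod_cast hr
  have hN : (0 : ℝ) < (Fintype.card S : ℝ) := by
    have h6 : #(U i) ≤ Fintype.card S := Finset.card_le_univ _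
    have : 0 < Fintype.card S := by omega
    exact_mod_cast this
  obtain ⟨N, hN'⟩ : ∃ N : ℝ, N = (Fintype.card S : ℝ) := ⟨_, rfl⟩
  rw [← hN'] at h1 hN hD
  obtain ⟨P, hP'⟩ : ∃ P : ℝ, P = PP U := ⟨_, rfl⟩
  rw [← hP'] at h1 heP hPpos hD
  have h6 : f * n * (D / (4 * n) + D / (4 * n)) = f * D / 2 := by field_simp; ring
  rw [h6] at h3
  have h7 : (3 / 4 * (r : ℝ)) * (N * (P * f - eps lam)) ≤ f * D / 2 := by
    refine le_trans ?_ (h1.trans (h2.trans h3))
    apply mul_le_mul_of_nonneg_right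
    · nlinarith
    · have : 0 ≤ P * f - eps lam := by nlinarith
      positivity
  rw [hD] at h7
  have h8 : 3 / 4 * (P * f - eps lam) ≤ f * P / 2 := by
    have h9 : ((r : ℝ) * N) * (3 / 4 * (P * f - eps lam)) ≤ ((r : ℝ) * N) * (f * P / 2) := by
      nlinarith
    exact le_of_mul_le_mul_left h9 (by positivity)
  have h10 : P * (f - 3 * kap lam) ≤ 0 := by nlinarith
  have h11 : 0 < P * (f - 3 * kap lam) := by
    apply mul_pos hPpos
    linarith
  linarith

lemma mark_step (hlam : 1 ≤ lam) (hN : 2048 * lam ^ 4 ≤ Fintype.card S) (hr : 0 < r)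
    (hQ : QR π (eps lam)) (J : Finset (Fin r)) (hJ : (#J : ℝ) ≤ (r : ℝ) / 8) (s t : ℕ)
    (hs : (Fintype.card S : ℝ) / (2 * (lam : ℝ)) ≤ (s : ℝ)) (U : Fin lam → Finset S)
    (hU : ∀ i, s ≤ #(U i)) (hdh : dh π C U ≤ 1 / 8)
    (hgood : ∀ i, s < #(U i) → ∀ v ∈ U i,
      (dd π C U i v : ℝ) ≤ (r : ℝ) * (Fintype.card S : ℝ) * PP U / (4 * (#(U i) : ℝ))) :
    ∃ q : Fin r × S, q.1 ∉ J ∧ q ∉ C ∧ Ins π U q ∧ ∃ R : Finset (Fin lam),
      (∀ i ∈ R, s < #(U i)) ∧
      Phi π C s (t + 1) (upd U R (fun i => π q.1 i q.2)) ≤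
        Phi π C s t U + 1 / (512 * (Fintype.card S : ℝ)) := by
  have hlamR : (1 : ℝ) ≤ (lam : ℝ) := by exact_mod_cast hlam
  have hNR : 2048 * (lam : ℝ) ^ 4 ≤ (Fintype.card S : ℝ) := by exact_mod_cast hN
  have hlam4 : (1 : ℝ) ≤ (lam : ℝ) ^ 4 := one_le_pow₀ hlamR
  have hNpos : (0 : ℝ) < (Fintype.card S : ℝ) := by linarith
  have hr' : (0 : ℝ) < (r : ℝ) := by exact_mod_cast hr
  have hspos : (0 : ℝ) < (s : ℝ) := lt_of_lt_of_le (by positivity) hs
  have hn : ∀ i, (Fintype.card S : ℝ) / (2 * (lam : ℝ)) ≤ (#(U i) : ℝ) := by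
    intro i
    refine hs.trans ?_
    exact_mod_cast hU i
  have hnpos : ∀ i, (0 : ℝ) < (#(U i) : ℝ) := fun i => lt_of_lt_of_le (by positivity) (hn i)
  have hnposN : ∀ i, 0 < #(U i) := fun i => by exact_mod_cast hnpos i
  have hk := kap_pos lam hlam
  have hk1 := kap_le lam hlam
  have hom := omg_pos lam hlam
  have he := eps_le lam hlam
  have he0 := eps_pos lam hlam
  have hP : omg lam ≤ PP U := by
    unfold omg
    apply PP_ge U _ (by positivity)
    intro i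
    have := hn i
    rw [div_le_div_iff₀ (by positivity) hNpos]
    rw [div_le_iff₀ (by positivity)] at this
    linarith
  have hPpos : 0 < PP U := lt_of_lt_of_le hom hP
  have heP : eps lam ≤ kap lam * PP U := by
    unfold eps
    exact mul_le_mul_of_nonneg_left hP hk.le
  obtain ⟨D, hD⟩ : ∃ D : ℝ, D = (r : ℝ) * (Fintype.card S : ℝ) * PP U := ⟨_, rfl⟩
  have hDpos : 0 < D := by rw [hD]; positivity
  rw [← hD] at hgood
  obtain ⟨a, ha⟩ : ∃ a : ℝ, a = (#(Al π C J U) : ℝ) := ⟨_, rfl⟩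
  -- upper bound for a
  have ha1 : a ≤ D * (1 + 2 * kap lam) := by
    have h1 := Al_upper π C (eps lam) hQ J U
    rw [← ha] at h1
    have h2 : (r : ℝ) * (Fintype.card S : ℝ) * (PP U + 2 * eps lam) ≤
        (r : ℝ) * (Fintype.card S : ℝ) * (PP U + 2 * (kap lam * PP U)) := by
      apply mul_le_mul_of_nonneg_left _ (by positivity)
      linarith
    rw [hD]
    nlinarith
  -- lower bound for a
  have ha2 : D / 2 ≤ a := by
    have h1 := cnt_lower π (eps lam) hQ J U (by nlinarith)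
    have h2 : (cnt π J U : ℝ) ≤ a + (NC π C U : ℝ) := by
      rw [ha]; exact_mod_cast cnt_le_Al π C J U
    have h3 : (NC π C U : ℝ) ≤ D / 8 := by
      unfold dh at hdh
      rw [← hD, div_le_iff₀ hDpos] at hdh
      linarith
    have h4 : (3 / 4 * (r : ℝ)) * ((Fintype.card S : ℝ) * (PP U * (1 - kap lam))) ≤
        ((r : ℝ) - (#J : ℝ) - eps lam * r) * ((Fintype.card S : ℝ) * (PP U - eps lam)) := by
      apply mul_le_mul
      · nlinarith
      · apply mul_le_mul_of_nonneg_left _ hNpos.le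
        linarith
      · have : 0 ≤ 1 - kap lam := by linarith
        positivity
      · nlinarith
    have h5 : (3 / 4 * (r : ℝ)) * ((Fintype.card S : ℝ) * (PP U * (1 - kap lam))) =
        3 / 4 * (1 - kap lam) * D := by rw [hD]; ring
    nlinarith
  have hapos : 0 < a := by linarith
  have hAne : (Al π C J U).Nonempty := by
    rw [← Finset.card_pos]
    have : (0 : ℝ) < (#(Al π C J U) : ℝ) := by rw [← ha]; exact hapos
    exact_mod_cast this
  obtain ⟨Act, hAct⟩ : ∃ Act : Finset (Fin lam), Act = univ.filter (fun i => s < #(U i)) :=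
    ⟨_, rfl⟩
  obtain ⟨F, hF⟩ : ∃ F : Fin lam → Finset S, F = fun i =>
      {v ∈ U i | (al π C J U i v : ℝ) < D / (4 * (#(U i) : ℝ))} := ⟨_, rfl⟩
  obtain ⟨g, hg⟩ : ∃ g : Fin lam → S → ℝ, g = fun i v =>
      (dh π C U / (#(U i) : ℝ) - (dd π C U i v : ℝ) / D
        - 9 / 16 * (1 / (32 * (lam : ℝ))) * wt s t U i) := ⟨_, rfl⟩
  obtain ⟨q, hq, R, hR, hle⟩ := exists_mark π (Al π C J U) hAne U
    (fun q hq i => by
      unfold Al at hq
      exact (Finset.mem_filter.1 hq).2.2.2 i) Act g F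
    (fun i => D / (4 * (#(U i) : ℝ))) (fun i _ => by have := hnpos i; positivity)
    (fun i _ v hv hvF => by
      rw [hF] at hvF
      simp only [Finset.mem_filter, not_and, not_lt] at hvF
      exact hvF hv)
  rw [← ha] at hle
  -- bound of each term
  have hterm : ∀ i ∈ Act, (1 / a) * (D / (4 * (#(U i) : ℝ)) * ∑ v ∈ U i \ F i, g i v) ≤
      kap lam * (lam : ℝ) / (Fintype.card S : ℝ) -
        1 / 8 * (1 / (32 * (lam : ℝ))) * wt s t U i := by
    intro i hi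
    have hi' : s < #(U i) := by rw [hAct] at hi; exact (Finset.mem_filter.1 hi).2
    have hFb := F_bound π C hlam hr hQ J hJ U hP i (hnposN i) D hD (hgood i hi')
    have hFeq : F i = {v ∈ U i | (al π C J U i v : ℝ) < D / (4 * (#(U i) : ℝ))} := by rw [hF]
    rw [← hFeq] at hFb
    have hFU : F i ⊆ U i := by rw [hFeq]; exact Finset.filter_subset _ _
    have hge : g i = fun v => (dh π C U / (#(U i) : ℝ) - (dd π C U i v : ℝ) / D
        - 9 / 16 * (1 / (32 * (lam : ℝ))) * wt s t U i) := by rw [hg]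
    rw [hge]
    exact term_i π C hlam hNpos s t U i (hnpos i) (hn i) D hD hDpos a hapos ha1 ha2
      (hgood i hi') (F i) hFU hFb
  have hsumle : (1 / a) * ∑ i ∈ Act, D / (4 * (#(U i) : ℝ)) * ∑ v ∈ U i \ F i, g i v ≤
      kap lam * (lam : ℝ) ^ 2 / (Fintype.card S : ℝ) -
        1 / 8 * (1 / (32 * (lam : ℝ))) * ∑ i, wt s t U i := by
    rw [Finset.mul_sum]
    calc _ ≤ ∑ i ∈ Act, (kap lam * (lam : ℝ) / (Fintype.card S : ℝ) -
        1 / 8 * (1 / (32 * (lam : ℝ))) * wt s t U i) := Finset.sum_le_sum hterm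
      _ = (#Act : ℝ) * (kap lam * (lam : ℝ) / (Fintype.card S : ℝ)) -
          1 / 8 * (1 / (32 * (lam : ℝ))) * ∑ i ∈ Act, wt s t U i := by
          rw [Finset.sum_sub_distrib, Finset.sum_const, nsmul_eq_mul, Finset.mul_sum]
      _ ≤ (lam : ℝ) * (kap lam * (lam : ℝ) / (Fintype.card S : ℝ)) -
          1 / 8 * (1 / (32 * (lam : ℝ))) * ∑ i, wt s t U i := by
          have h1 : (#Act : ℝ) ≤ (lam : ℝ) := by
            have := Finset.card_le_univ Act
            rw [Fintype.card_fin] at this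
            exact_mod_cast this
          have h2 : ∑ i ∈ Act, wt s t U i = ∑ i, wt s t U i := by
            rw [hAct, Finset.sum_filter]
            refine Finset.sum_congr rfl (fun i _ => ?_)
            unfold wt
            split_ifs <;> rfl
          rw [h2]
          have h3 : (#Act : ℝ) * (kap lam * (lam : ℝ) / (Fintype.card S : ℝ)) ≤
              (lam : ℝ) * (kap lam * (lam : ℝ) / (Fintype.card S : ℝ)) :=
            mul_le_mul_of_nonneg_right h1 (by positivity)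
          linarith
      _ = _ := by ring
  -- conclusion
  have hqA := hq
  unfold Al at hqA
  simp only [Finset.mem_filter, Finset.mem_univ, true_and] at hqA
  refine ⟨q, hqA.1, hqA.2.1, hqA.2.2, R, fun i hi => ?_, ?_⟩
  · have := hR hi
    rw [hAct] at this
    exact (Finset.mem_filter.1 this).2
  obtain ⟨x, hx⟩ : ∃ x : ℝ, x = ∑ i ∈ R, 1 / (#(U i) : ℝ) := ⟨_, rfl⟩
  have hx0 : 0 ≤ x := by rw [hx]; positivity
  have hx1 : x ≤ 2 * (lam : ℝ) ^ 2 / (Fintype.card S : ℝ) := by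
    rw [hx]
    calc ∑ i ∈ R, 1 / (#(U i) : ℝ) ≤ ∑ i ∈ R, (2 * (lam : ℝ) / (Fintype.card S : ℝ)) := by
          refine Finset.sum_le_sum (fun i _ => ?_)
          have h1 := hn i
          have h2 := hnpos i
          rw [div_le_div_iff₀ h2 hNpos]
          rw [div_le_iff₀ (by positivity)] at h1
          linarith
      _ = (#R : ℝ) * (2 * (lam : ℝ) / (Fintype.card S : ℝ)) := by
          rw [Finset.sum_const, nsmul_eq_mul]
      _ ≤ (lam : ℝ) * (2 * (lam : ℝ) / (Fintype.card S : ℝ)) := by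
          apply mul_le_mul_of_nonneg_right _ (by positivity)
          have := Finset.card_le_univ R
          rw [Fintype.card_fin] at this
          exact_mod_cast this
      _ = _ := by ring
  have hx2 : x ≤ 1 / 2 := by
    refine hx1.trans ?_
    rw [div_le_div_iff₀ hNpos (by norm_num)]
    have h1 : (lam : ℝ) ^ 2 ≤ (lam : ℝ) ^ 4 := pow_le_pow_right₀ hlamR (by norm_num)
    linarith
  have hexp := mark_expand π C s t U R (fun i => π q.1 i q.2) (fun i _ => hqA.2.2 i) hnposN hr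
    (by omega) (eps lam * r) (by positivity) hQ.2 x hx hx2 D hD
  have hgR : ∑ i ∈ R, (dh π C U / (#(U i) : ℝ) - (dd π C U i (π q.1 i q.2) : ℝ) / D
        - 9 / 16 * (1 / (32 * (lam : ℝ))) * wt s t U i) = ∑ i ∈ R, g i (π q.1 i q.2) := by
    rw [hg]
  rw [hgR] at hexp
  have herr1 : 2 * x ^ 2 * dh π C U ≤ 1 / (2048 * (Fintype.card S : ℝ)) := by
    have h0 : 0 ≤ dh π C U := by
      unfold dh
      rw [← hD]
      positivity
    have h1 : 2 * x ^ 2 * dh π C U ≤ 2 * x ^ 2 * (1 / 8) :=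
      mul_le_mul_of_nonneg_left hdh (by positivity)
    have h2 : x ^ 2 ≤ (2 * (lam : ℝ) ^ 2 / (Fintype.card S : ℝ)) ^ 2 :=
      pow_le_pow_left₀ hx0 hx1 2
    have h3 : (2 * (lam : ℝ) ^ 2 / (Fintype.card S : ℝ)) ^ 2 =
        4 * (lam : ℝ) ^ 4 / ((Fintype.card S : ℝ) * (Fintype.card S : ℝ)) := by
      rw [div_pow]; ring
    have h4 : 4 * (lam : ℝ) ^ 4 / ((Fintype.card S : ℝ) * (Fintype.card S : ℝ)) ≤
        4 * (1 / (2048 * (Fintype.card S : ℝ))) := by
      rw [div_le_iff₀ (by positivity)]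
      have h5 : 4 * (1 / (2048 * (Fintype.card S : ℝ))) *
          ((Fintype.card S : ℝ) * (Fintype.card S : ℝ)) = 4 * ((Fintype.card S : ℝ) / 2048) := by
        field_simp
      rw [h5]
      linarith
    rw [h3] at h2
    linarith
  have herr2 : 2 * ((lam : ℝ) ^ 2 * (eps lam * r) / D) ≤
      2 * (kap lam * (lam : ℝ) ^ 2 / (Fintype.card S : ℝ)) := by
    have h1 : (lam : ℝ) ^ 2 * (eps lam * r) / D ≤ kap lam * (lam : ℝ) ^ 2 / (Fintype.card S : ℝ) := by
      rw [div_le_div_iff₀ hDpos hNpos, hD]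
      have h2 : (lam : ℝ) ^ 2 * (eps lam * r) * (Fintype.card S : ℝ) =
          eps lam * ((lam : ℝ) ^ 2 * r * (Fintype.card S : ℝ)) := by ring
      have h3 : kap lam * (lam : ℝ) ^ 2 * ((r : ℝ) * (Fintype.card S : ℝ) * PP U) =
          (kap lam * PP U) * ((lam : ℝ) ^ 2 * r * (Fintype.card S : ℝ)) := by ring
      rw [h2, h3]
      exact mul_le_mul_of_nonneg_right heP (by positivity)
    linarith
  have hkl : kap lam * (lam : ℝ) ^ 2 / (Fintype.card S : ℝ) = 1 / (2048 * (Fintype.card S : ℝ)) := by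
    unfold kap
    have : (lam : ℝ) ≠ 0 := by positivity
    field_simp
  rw [hkl] at herr2 hsumle
  have hfin : 1 / (512 * (Fintype.card S : ℝ)) = 4 * (1 / (2048 * (Fintype.card S : ℝ))) := by
    field_simp
    norm_num
  rw [hfin]
  linarith

end Pool.Agent.R982.TC.Process
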