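import Pool.Agent.R982.TC.Defs

/-!
# Piece C of the project TC: from robust transversals to a lower bound for `tcr`
-/

open Finset Filter
open scoped ENNReal

namespace Pool.Agent.R982.TC.Graph

open Pool.Agent.R982.TC

/-- A label that is constant along the edges of a connected subgraph is constant on its
vertices. -/
theorem label_const {A B : Type} {G : SimpleGraph A} (H : G.Subgraph) (hc : H.coe.Connected)
    (L : A → B) (hL : ∀ a b, H.Adj a b → L a = L b) {a b : A} (ha : a ∈ H.verts)
    (hb : b ∈ H.verts) : L a = L b := by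
  obtain ⟨w⟩ := hc.preconnected ⟨a, ha⟩ ⟨b, hb⟩
  have key : ∀ (p q : H.verts), H.coe.Walk p q → L p.1 = L q.1 := by
    intro p q w
    induction w with
    | nil => rfl
    | cons h _ ih => exact (hL _ _ h).trans ih
  exact key _ _ w

/-- Abstract form of the lower bound. -/
theorem no_cover {r k : ℕ} {A S : Type} [Fintype S] (X : ColGraph A (r + 1))
    (Good : (Fin r → Option S) → Prop) (L : Fin r → A → Option S)
    (hL : ∀ a b (h : X.G.Adj a b) (j : Fin r), X.χ ⟨s(a, b), h⟩ = j.succ → L j a = L j b)
    (hgood : ∀ C : Finset (Fin r × S), #C ≤ k → ∃ T : Fin r → Option S,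
      Good T ∧ ∀ j c, T j = some c → (j, c) ∉ C)
    (o : (Fin r → Option S) → Fin (k + 1) → A)
    (hoi : ∀ T, Good T → Function.Injective (o T))
    (hoL : ∀ T t j, Good T → L j (o T t) = T j)
    (hoe : ∀ T t b (h : X.G.Adj (o T t) b), Good T →
      ∃ j : Fin r, X.χ ⟨s(o T t, b), h⟩ = j.succ ∧ ∃ c, T j = some c)
    {k' : ℕ} (hk' : k' ≤ k) : ¬ X.HasTreeCover k' := by
  classical
  rintro ⟨F, hF, hcov⟩
  choose col hcol using fun i => (hF i).2
  have hconst : ∀ (i : Fin k') (j : Fin r), col i = j.succ → ∀ a b, a ∈ (F i).verts →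
      b ∈ (F i).verts → L j a = L j b := by
    intro i j hij a b ha hb
    refine label_const (F i) (hF i).1.connected (L j) ?_ ha hb
    intro p q hpq
    refine hL p q ((F i).adj_sub hpq) j ?_
    rw [← hij]
    exact hcol i s(p, q) ((F i).mem_edgeSet.2 hpq)
  set C : Finset (Fin r × S) := Finset.univ.filter (fun jc : Fin r × S =>
    ∃ i : Fin k', col i = jc.1.succ ∧ ∃ a ∈ (F i).verts, L jc.1 a = some jc.2) with hC
  have hCmem : ∀ jc : Fin r × S, jc ∈ C ↔
      ∃ i : Fin k', col i = jc.1.succ ∧ ∃ a ∈ (F i).verts, L jc.1 a = some jc.2 := by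
    intro jc
    simp [hC]
  have hCcard : #C ≤ k := by
    refine le_trans ?_ hk'
    have hex : ∀ jc : C, ∃ i : Fin k', col i = jc.1.1.succ ∧
        ∃ a ∈ (F i).verts, L jc.1.1 a = some jc.1.2 := fun jc => (hCmem jc.1).1 jc.2
    choose f hf using hex
    have hinj : Function.Injective f := by
      intro p q hpq
      obtain ⟨h1, a, ha, h2⟩ := hf p
      obtain ⟨h3, b, hb, h4⟩ := hf q
      have hj : p.1.1 = q.1.1 := by
        apply Fin.succ_injective
        rw [← h1, ← h3, hpq]
      apply Subtype.ext
      apply Prod.ext hj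
      rw [hpq] at ha h1
      have h5 := hconst (f q) p.1.1 h1 a b ha hb
      rw [h2, hj, h4] at h5
      exact Option.some_injective _ h5
    have := Fintype.card_le_of_injective f hinj
    simpa using this
  obtain ⟨T, hT, hTC⟩ := hgood C hCcard
  choose g hg using fun t : Fin (k + 1) => hcov (o T t)
  obtain ⟨t, t', htt, hgt⟩ : ∃ t t', t ≠ t' ∧ g t = g t' := by
    apply Fintype.exists_ne_map_eq_of_card_lt g
    simp
    omega
  have hat := hg t
  have hbt := hg t'
  rw [← hgt] at hbt
  set i := g t
  have hne : (⟨o T t, hat⟩ : (F i).verts) ≠ ⟨o T t', hbt⟩ := by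
    intro h
    exact htt (hoi T hT (congrArg Subtype.val h))
  obtain ⟨w⟩ := (hF i).1.connected.preconnected ⟨o T t, hat⟩ ⟨o T t', hbt⟩
  have hstep : ∀ (p q : (F i).verts), (F i).coe.Walk p q → p ≠ q →
      ∃ b : (F i).verts, (F i).coe.Adj p b := by
    intro p q w hpq
    cases w with
    | nil => exact absurd rfl hpq
    | cons h _ => exact ⟨_, h⟩
  obtain ⟨b, hb⟩ := hstep _ _ w hne
  have hadj : (F i).Adj (o T t) b.1 := hb
  obtain ⟨j, hj, c, hc⟩ := hoe T t b.1 ((F i).adj_sub hadj) hT
  have hcolj : col i = j.succ := by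
    rw [← hj]
    exact (hcol i s(o T t, b.1) ((F i).mem_edgeSet.2 hadj)).symm
  refine hTC j c hc ((hCmem (j, c)).2 ⟨i, hcolj, o T t, hat, ?_⟩)
  rw [hoL T t j hT, hc]

/-- Symmetric colour function. -/
noncomputable def colr {r : ℕ} {V S O M : Type} (x : Fin r → V → S) (TT : O → Fin r → Option S)
    (vv : M → V) : O ⊕ M → O ⊕ M → Option (Fin (r + 1))
  | Sum.inl _, Sum.inl _ => none
  | Sum.inr _, Sum.inr _ => some 0
  | Sum.inl o, Sum.inr m =>
      open Classical in
      if h : ∃ j, TT o j = some (x j (vv m)) then some (Classical.choose h).succ else none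
  | Sum.inr m, Sum.inl o =>
      open Classical in
      if h : ∃ j, TT o j = some (x j (vv m)) then some (Classical.choose h).succ else none

theorem colr_symm {r : ℕ} {V S O M : Type} (x : Fin r → V → S) (TT : O → Fin r → Option S)
    (vv : M → V) (a b : O ⊕ M) : colr x TT vv a b = colr x TT vv b a := by
  cases a <;> cases b <;> rfl

/-- The graph on `A`. -/
def gr {r : ℕ} {A V S O M : Type} (x : Fin r → V → S) (TT : O → Fin r → Option S)
    (vv : M → V) (dec : A → O ⊕ M) : SimpleGraph A where
  Adj a b := a ≠ b ∧ (colr x TT vv (dec a) (dec b)).isSome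
  symm := ⟨by
    rintro a b ⟨h1, h2⟩
    refine ⟨h1.symm, ?_⟩
    rwa [colr_symm]⟩
  loopless := ⟨fun a h => h.1 rfl⟩

/-- The coloured graph on `A`. -/
noncomputable def cg {r : ℕ} {A V S O M : Type} (x : Fin r → V → S) (TT : O → Fin r → Option S)
    (vv : M → V) (dec : A → O ⊕ M) : ColGraph A (r + 1) where
  G := gr x TT vv dec
  χ e := (Sym2.lift ⟨fun a b => (colr x TT vv (dec a) (dec b)).getD 0, by
    intro a b
    show (colr x TT vv (dec a) (dec b)).getD 0 = (colr x TT vv (dec b) (dec a)).getD 0
    rw [colr_symm]⟩) e.1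

theorem cg_χ {r : ℕ} {A V S O M : Type} (x : Fin r → V → S) (TT : O → Fin r → Option S)
    (vv : M → V) (dec : A → O ⊕ M) (a b : A) (h : (cg x TT vv dec).G.Adj a b) :
    (cg x TT vv dec).χ ⟨s(a, b), h⟩ = (colr x TT vv (dec a) (dec b)).getD 0 := rfl

theorem graph_ok : St_Graph := by
  classical
  intro r k u V S _ _ x δ hδ0 hδ1 hu hrob
  set M := Fintype.card V with hM
  -- the good partial transversals
  let Good : (Fin r → Option S) → Prop := fun T =>
    Nat.card {v : V // ∀ j, T j ≠ some (x j v)} ≤ u
  let O : Type := {T : Fin r → Option S // Good T} × Fin (k + 1)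
  let Q : ℕ := Fintype.card O
  have hMpos : 0 < δ * (M : ℝ) - u := by linarith
  have hM1 : 1 ≤ M := by
    by_contra h
    have h0 : M = 0 := by omega
    rw [h0] at hMpos
    have : (0 : ℝ) ≤ u := Nat.cast_nonneg u
    simp at hMpos
    linarith
  obtain ⟨m0, hm0⟩ := exists_nat_ge (((Q : ℝ) + 1) / (δ * (M : ℝ) - u))
  unfold tcr
  refine le_limsup_of_frequently_le ?_
  rw [frequently_atTop]
  intro N
  set m : ℕ := max N m0 with hm
  have hmm0 : ((Q : ℝ) + 1) ≤ (δ * (M : ℝ) - u) * m := by
    have h1 : ((Q : ℝ) + 1) / (δ * (M : ℝ) - u) ≤ m :=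
      hm0.trans (by exact_mod_cast le_max_right N m0)
    rw [div_le_iff₀ hMpos] at h1
    linarith
  set n : ℕ := Q + M * m with hn
  have hnN : N ≤ n := by
    have : m ≤ M * m := Nat.le_mul_of_pos_left m (by omega)
    have : N ≤ m := le_max_left _ _
    omega
  refine ⟨n, hnN, ?_⟩
  -- the bijection
  have hcard : Fintype.card (Fin n) = Fintype.card (O ⊕ (V × Fin m)) := by
    simp [hn, Q, hM]
  let dec : Fin n ≃ O ⊕ (V × Fin m) := Fintype.equivOfCardEq hcard
  let TT : O → Fin r → Option S := fun o => o.1.1
  let vv : V × Fin m → V := Prod.fst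
  let Y : ColGraph (Fin n) (r + 1) := cg x TT vv dec
  have hAdj : ∀ a b, Y.G.Adj a b ↔ a ≠ b ∧ (colr x TT vv (dec a) (dec b)).isSome :=
    fun a b => Iff.rfl
  have hnR : (n : ℝ) = (Q : ℝ) + (M : ℝ) * (m : ℝ) := by
    rw [hn]
    push_cast
    ring
  have hQ0 : (0 : ℝ) ≤ (Q : ℝ) := Nat.cast_nonneg Q
  have hu0 : (0 : ℝ) ≤ (u : ℝ) := Nat.cast_nonneg u
  have hm0' : (0 : ℝ) ≤ (m : ℝ) := Nat.cast_nonneg m
  -- minimum degree
  have hmin : Y.MinDeg δ := by
    intro a
    rcases hda : dec a with o | p
    · -- outlier
      have hsub : ((Finset.univ.filter (fun v : V => ∃ j, TT o j = some (x j v))) ×ˢ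
          (Finset.univ : Finset (Fin m))).image (fun q => dec.symm (Sum.inr q)) ⊆
          (Finset.univ.filter (fun b => Y.G.Adj a b)) := by
        intro b hb
        rw [Finset.mem_image] at hb
        obtain ⟨q, hq, rfl⟩ := hb
        rw [Finset.mem_product, Finset.mem_filter] at hq
        rw [Finset.mem_filter]
        refine ⟨Finset.mem_univ _, (hAdj _ _).2 ⟨?_, ?_⟩⟩
        · intro h
          rw [h, Equiv.apply_symm_apply] at hda
          cases hda
        · rw [hda, Equiv.apply_symm_apply]
          have h2 : ∃ j, TT o j = some (x j (vv q)) := hq.1.2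
          simp only [colr]
          rw [dif_pos h2]
          rfl
      have hc1 := Finset.card_le_card hsub
      rw [Finset.card_image_of_injective _ (fun p q h => by
        simpa using h), Finset.card_product] at hc1
      have hc2 : (Y.G.neighborSet a).ncard = #(Finset.univ.filter (fun b => Y.G.Adj a b)) := by
        rw [Set.ncard_eq_toFinset_card']
        congr 1
        ext b
        simp
      have hc3 : M ≤ #(Finset.univ.filter (fun v : V => ∃ j, TT o j = some (x j v))) + u := by
        have h1 : Nat.card {v : V // ∀ j, TT o j ≠ some (x j v)} ≤ u := o.1.2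
        rw [Nat.card_eq_fintype_card, Fintype.card_subtype] at h1
        have h2 := Finset.card_filter_add_card_filter_not (s := (Finset.univ : Finset V))
          (fun v : V => ∃ j, TT o j = some (x j v))
        have h3 : (Finset.univ.filter (fun v : V => ¬ ∃ j, TT o j = some (x j v))) =
            (Finset.univ.filter (fun v : V => ∀ j, TT o j ≠ some (x j v))) := by
          apply Finset.filter_congr
          intro v _
          simp
        rw [h3, Finset.card_univ] at h2
        omega
      rw [hc2, hnR]
      have hc4 : ((M : ℝ) - u) * m ≤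
          (#(Finset.univ.filter (fun b => Y.G.Adj a b)) : ℝ) := by
        have h1 : (M : ℝ) ≤ (#(Finset.univ.filter (fun v : V => ∃ j, TT o j = some (x j v))) : ℝ)
            + u := by exact_mod_cast hc3
        have h2 : ((#(Finset.univ.filter (fun v : V => ∃ j, TT o j = some (x j v))) : ℝ)) * m ≤
            (#(Finset.univ.filter (fun b => Y.G.Adj a b)) : ℝ) := by
          have := hc1
          rw [Finset.card_univ, Fintype.card_fin] at this
          exact_mod_cast this
        have h3 : ((M : ℝ) - u) ≤
            (#(Finset.univ.filter (fun v : V => ∃ j, TT o j = some (x j v))) : ℝ) := by linarith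
        exact (mul_le_mul_of_nonneg_right h3 hm0').trans h2
      nlinarith [mul_nonneg hδ0.le hQ0]
    · -- mass vertex
      have hsub : ((Finset.univ : Finset (V × Fin m)).erase p).image
          (fun q => dec.symm (Sum.inr q)) ⊆
          (Finset.univ.filter (fun b => Y.G.Adj a b)) := by
        intro b hb
        rw [Finset.mem_image] at hb
        obtain ⟨q, hq, rfl⟩ := hb
        rw [Finset.mem_erase] at hq
        rw [Finset.mem_filter]
        refine ⟨Finset.mem_univ _, (hAdj _ _).2 ⟨?_, ?_⟩⟩
        · intro h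
          rw [h, Equiv.apply_symm_apply] at hda
          exact hq.1 (Sum.inr_injective hda)
        · rw [hda, Equiv.apply_symm_apply]
          rfl
      have hc1 := Finset.card_le_card hsub
      rw [Finset.card_image_of_injective _ (fun p q h => by
        simpa using h), Finset.card_erase_of_mem (Finset.mem_univ _), Finset.card_univ,
        Fintype.card_prod, Fintype.card_fin] at hc1
      have hc2 : (Y.G.neighborSet a).ncard = #(Finset.univ.filter (fun b => Y.G.Adj a b)) := by
        rw [Set.ncard_eq_toFinset_card']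
        congr 1
        ext b
        simp
      rw [hc2, hnR]
      have hc4 : (M : ℝ) * m - 1 ≤
          (#(Finset.univ.filter (fun b => Y.G.Adj a b)) : ℝ) := by
        have h1 : M * m ≤ #(Finset.univ.filter (fun b => Y.G.Adj a b)) + 1 := by
          rw [← hM] at hc1
          omega
        have h2 : (M : ℝ) * m ≤ (#(Finset.univ.filter (fun b => Y.G.Adj a b)) : ℝ) + 1 := by
          exact_mod_cast h1
        linarith
      nlinarith [mul_nonneg hδ0.le hQ0, mul_nonneg hu0 hm0']
  refine le_trans ?_ (le_iSup (fun X : {X : ColGraph (Fin n) (r + 1) // X.MinDeg δ} => X.1.tc)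
    ⟨Y, hmin⟩)
  -- the lower bound
  show ((k + 1 : ℕ) : ℕ∞) ≤ Y.tc
  unfold ColGraph.tc
  refine le_iInf₂ ?_
  intro k' hk'
  by_contra hlt
  rw [not_le] at hlt
  have hlt' : k' ≤ k := by
    have : k' < k + 1 := by exact_mod_cast hlt
    omega
  let L : Fin r → Fin n → Option S := fun j a =>
    match dec a with
    | Sum.inl o => TT o j
    | Sum.inr p => some (x j (vv p))
  have hLinl : ∀ j a o, dec a = Sum.inl o → L j a = TT o j := by
    intro j a o h
    simp only [L, h]
  have hLinr : ∀ j a p, dec a = Sum.inr p → L j a = some (x j (vv p)) := by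
    intro j a p h
    simp only [L, h]
  let oo : (Fin r → Option S) → Fin (k + 1) → Fin n := fun T t =>
    if h : Good T then dec.symm (Sum.inl (⟨T, h⟩, t)) else ⟨0, by
      have : 1 ≤ M * m := by
        have : 1 ≤ m := by
          by_contra h0
          have h1 : m = 0 := by omega
          rw [h1] at hmm0
          simp at hmm0
          linarith
        exact Nat.mul_pos (by omega) (by omega)
      omega⟩
  have hoo : ∀ T t (h : Good T), dec (oo T t) = Sum.inl (⟨T, h⟩, t) := by
    intro T t h
    simp only [oo, dif_pos h, Equiv.apply_symm_apply]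
  refine no_cover (k := k) Y Good L ?_ ?_ oo ?_ ?_ ?_ hlt' hk'
  · intro a b h j hχ
    rw [cg_χ] at hχ
    have h' := (hAdj a b).1 h
    rcases hda : dec a with o | p <;> rcases hdb : dec b with o' | p'
    · rw [hda, hdb] at h'
      exact absurd h'.2 (by simp [colr])
    · rw [hda, hdb] at hχ h'
      rw [hLinl j a o hda, hLinr j b p' hdb]
      by_cases h2 : ∃ j, TT o j = some (x j (vv p'))
      · simp only [colr] at hχ
        rw [dif_pos h2] at hχ
        have h3 : Classical.choose h2 = j := Fin.succ_injective _ hχ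
        have h4 := Classical.choose_spec h2
        rw [h3] at h4
        exact h4
      · exfalso
        have h5 := h'.2
        simp only [colr] at h5
        rw [dif_neg h2] at h5
        simp at h5
    · rw [hda, hdb] at hχ h'
      rw [hLinr j a p hda, hLinl j b o' hdb]
      by_cases h2 : ∃ j, TT o' j = some (x j (vv p))
      · simp only [colr] at hχ
        rw [dif_pos h2] at hχ
        have h3 : Classical.choose h2 = j := Fin.succ_injective _ hχ
        have h4 := Classical.choose_spec h2
        rw [h3] at h4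
        exact h4.symm
      · exfalso
        have h5 := h'.2
        simp only [colr] at h5
        rw [dif_neg h2] at h5
        simp at h5
    · rw [hda, hdb] at hχ
      exfalso
      simp only [colr, Option.getD_some] at hχ
      exact absurd hχ.symm (Fin.succ_ne_zero j)
  · intro C hC
    obtain ⟨T, h1, h2⟩ := hrob C hC
    exact ⟨T, h2, h1⟩
  · intro T hT t t' h
    have h1 := congrArg dec h
    rw [hoo T t hT, hoo T t' hT] at h1
    have h2 := Sum.inl_injective h1
    exact (Prod.ext_iff.1 h2).2
  · intro T t j hT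
    rw [hLinl j _ _ (hoo T t hT)]
  · intro T t b h hT
    rw [cg_χ]
    have h' := (hAdj _ _).1 h
    rcases hdb : dec b with o' | p'
    · rw [hoo T t hT, hdb] at h'
      exact absurd h'.2 (by simp [colr])
    · rw [hoo T t hT, hdb] at h'
      rw [hoo T t hT]
      by_cases h2 : ∃ j, TT (⟨T, hT⟩, t) j = some (x j (vv p'))
      · refine ⟨Classical.choose h2, ?_, _, Classical.choose_spec h2⟩
        simp only [colr]
        rw [dif_pos h2]
        rfl
      · exfalso
        have h5 := h'.2
        simp only [colr] at h5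
        rw [dif_neg h2] at h5
        simp at h5

end Pool.Agent.R982.TC.Graph
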