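import Pool.Agent.R982.TC.Defs

/-!
# Piece M of the project TC (MP_3e3c2c_co): monotonicity of `tcr` in the number of colours
-/

open Finset Filter
open scoped ENNReal

namespace Pool.Agent.R982.TC.Mono

/-- The same coloured graph, with more colours. -/
def recol {A : Type} {r r' : ℕ} (h : r ≤ r') (X : ColGraph A r) : ColGraph A r' where
  G := X.G
  χ e := Fin.castLE h (X.χ e)

theorem mono_tree {A : Type} {r r' : ℕ} (h1 : 1 ≤ r) (h : r ≤ r') (X : ColGraph A r)
    (H : X.G.Subgraph) (hH : (recol h X).IsMonoTree H) : X.IsMonoTree H := by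
  obtain ⟨ht, i, hi⟩ := hH
  refine ⟨ht, ?_⟩
  by_cases hne : H.edgeSet.Nonempty
  · obtain ⟨e, he⟩ := hne
    refine ⟨X.χ ⟨e, H.edgeSet_subset he⟩, fun f hf => ?_⟩
    have e1 : Fin.castLE h (X.χ ⟨f, H.edgeSet_subset hf⟩) = i := hi f hf
    have e2 : Fin.castLE h (X.χ ⟨e, H.edgeSet_subset he⟩) = i := hi e he
    exact Fin.castLE_injective h (e1.trans e2.symm)
  · refine ⟨⟨0, h1⟩, fun f hf => absurd ⟨f, hf⟩ hne⟩

theorem tc_le {A : Type} {r r' : ℕ} (h1 : 1 ≤ r) (h : r ≤ r') (X : ColGraph A r) :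
    X.tc ≤ (recol h X).tc := by
  unfold ColGraph.tc
  refine le_iInf fun k => le_iInf fun hk => ?_
  obtain ⟨F, hF, hc⟩ := hk
  exact iInf_le_of_le k (iInf_le_of_le ⟨F, fun i => mono_tree h1 h X (F i) (hF i), hc⟩ le_rfl)

theorem mono_ok : St_Mono := by
  intro r r' δ h1 h
  unfold tcr
  refine limsup_le_limsup (Eventually.of_forall fun n => ?_)
  refine iSup_le fun X => ?_
  refine (tc_le h1 h X.1).trans ?_
  exact le_iSup (fun X : {X : ColGraph (Fin n) r' // X.MinDeg δ} => X.1.tc)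
    ⟨recol h X.1, X.2⟩

end Pool.Agent.R982.TC.Mono
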